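import Pool.Agent.Helper28.PRG.MSys
import Pool.Agent.Helper91.PL.DE
import Pool.Agent.Helper91.PL.EX

/-!
# The exceptional set and the orbits which stay large

* `exists_alive`: an orbit of positive integers contains an integer which is not dead.
* `alive_above`: if `E(d, m, R)` is infinite then there are such integers whose orbit is `> B`.
* `stay_empty`: if `E(d, m, R)` is finite then no orbit is eventually `> B`, for a large `B`.
-/

set_option autoImplicit false

namespace PoolAgent.Helper28.PRG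

open Finset Pool.Agent.Helper68.Moeller Pool.Agent.Helper52.Tao Pool.Agent.Helper91

variable {d m p v s0 : ℕ} {r : ℤ → ℤ}

theorem st_iter_dvd (hd : 2 ≤ d) : ∀ (b : ℕ) (u : ℤ), (T d m r)^[b] ((d : ℤ) ^ b * u) = u
  | 0, u => by simp
  | b + 1, u => by
      have hd0 : (d : ℤ) ≠ 0 := by omega
      rw [Function.iterate_succ_apply]
      have h1 : T d m r ((d : ℤ) ^ (b + 1) * u) = (d : ℤ) ^ b * u := by
        have h2 : (d : ℤ) ∣ (d : ℤ) ^ (b + 1) * u := ⟨(d : ℤ) ^ b * u, by ring⟩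
        rw [T, if_pos h2, show (d : ℤ) ^ (b + 1) * u = d * ((d : ℤ) ^ b * u) by ring,
          Int.mul_ediv_cancel_left _ hd0]
      rw [h1, st_iter_dvd hd b u]

/-- A positive orbit contains a point not divisible by `d`. -/
theorem exists_not_dvd (hd : 2 ≤ d) {n : ℤ} (h : ∀ k, 1 ≤ (T d m r)^[k] n) :
    ∃ t, ¬ (d : ℤ) ∣ (T d m r)^[t] n := by
  by_contra hcon
  push Not at hcon
  have key : ∀ j : ℕ, (d : ℤ) ^ j * (T d m r)^[j] n = n := by
    intro j
    induction j with
    | zero => simp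
    | succ j ih =>
      rw [Function.iterate_succ_apply', pow_succ, mul_assoc, d_mul_T_of_dvd (hcon j), ih]
  have hn : 1 ≤ n := h 0
  have h1 := key n.toNat
  have h2 := h n.toNat
  have h3 : n.toNat < d ^ n.toNat := Nat.lt_pow_self (by omega)
  have h4 : (n.toNat : ℤ) < (d : ℤ) ^ n.toNat := by exact_mod_cast h3
  have h5 : (n.toNat : ℤ) = n := Int.toNat_of_nonneg (by omega)
  have h6 : (0 : ℤ) < (d : ℤ) ^ n.toNat := by positivity
  nlinarith

/-- A positive orbit has many points not divisible by `d`. -/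
theorem exists_sg (hd : 2 ≤ d) {n : ℤ} (h : ∀ k, 1 ≤ (T d m r)^[k] n) (s : ℕ) :
    ∃ t, s ≤ sg (wd d m r t n) := by
  induction s with
  | zero => exact ⟨0, by simp⟩
  | succ s ih =>
    obtain ⟨t, ht⟩ := ih
    have h' : ∀ k, 1 ≤ (T d m r)^[k] ((T d m r)^[t] n) := by
      intro k
      rw [← Function.iterate_add_apply]
      exact h _
    obtain ⟨j, hj⟩ := exists_not_dvd hd h'
    rw [← Function.iterate_add_apply] at hj
    refine ⟨j + t + 1, ?_⟩
    rw [← PL.card_eq_sg hd] at ht ⊢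
    have hsub : insert (j + t) ((range t).filter (fun i => ¬ (d : ℤ) ∣ (T d m r)^[i] n)) ⊆
        (range (j + t + 1)).filter (fun i => ¬ (d : ℤ) ∣ (T d m r)^[i] n) := by
      intro x hx
      rcases mem_insert.1 hx with rfl | hx
      · exact mem_filter.2 ⟨mem_range.2 (by omega), hj⟩
      · obtain ⟨h1, h2⟩ := mem_filter.1 hx
        exact mem_filter.2 ⟨mem_range.2 (by have := mem_range.1 h1; omega), h2⟩
    have hc := card_le_card hsub
    rw [card_insert_of_notMem (by simp)] at hc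
    omega

/-- A positive orbit contains an integer which is not dead. -/
theorem exists_alive (hB : Base d m p v s0 r) {n : ℤ} (h : ∀ k, 1 ≤ (T d m r)^[k] n) :
    ∃ t, ¬ PL.Dead d m r ((T d m r)^[t] n) := by
  obtain ⟨t, ht⟩ := exists_sg hB.hd h s0
  refine ⟨t, hB.c2 _ ?_⟩
  obtain ⟨h1, -⟩ := PL.hit_wd hB.hd hB.hdm hB.hr t n
  have h2 : PL.Hit d m r s0 ((T d m r)^[t] n) (wd d m r t n) :=
    (pow_dvd_pow _ ht).trans h1
  refine lt_of_lt_of_le ?_ (PL.nut_le_nu t s0 _)
  unfold PL.nut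
  have hd0 : (0 : ℝ) < d := by
    have := hB.hd
    exact_mod_cast (by omega : 0 < d)
  exact div_pos ((PL.nua_cW_pos_iff t _).2 ⟨_, wd_mem hB.hd r t n, ht, h2⟩) (by positivity)

theorem exists_resid_bound (d : ℕ) (r : ℤ → ℤ) :
    ∃ B : ℤ, 0 ≤ B ∧ ∀ j : ℤ, 0 < j → j < (d : ℤ) → |r j| ≤ B := by
  refine ⟨∑ j ∈ Finset.Ico (1 : ℤ) d, |r j|, sum_nonneg fun j _ => abs_nonneg _, ?_⟩
  intro j h1 h2
  exact single_le_sum (f := fun j => |r j|) (fun j _ => abs_nonneg _)
    (Finset.mem_Ico.2 ⟨by omega, h2⟩)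

/-- If the exceptional set is infinite there are integers which are not dead with an orbit `> B`. -/
theorem alive_above (hB : Base d m p v s0 r) (hinf : (E d m r).Infinite) (B : ℝ) :
    ∃ a : ℤ, 1 ≤ a ∧ ¬ PL.Dead d m r a ∧ ∀ k, B < ((T d m r)^[k] a : ℝ) := by
  obtain ⟨B₁, hB₁, hr⟩ := exists_resid_bound d r
  have hm1 : 1 ≤ m := by
    have := hB.hdm
    omega
  -- an element of `E` which is large
  obtain ⟨e, he, he1⟩ : ∃ e ∈ E d m r, max B₁ ⌈B⌉ < e := by
    by_contra hcon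
    push Not at hcon
    refine hinf ((Set.finite_Icc (1 : ℤ) (max B₁ ⌈B⌉)).subset fun e he => ⟨he.1, hcon e he⟩)
  have he2 : B₁ < e := lt_of_le_of_lt (le_max_left _ _) he1
  have he3 : B < (e : ℝ) := by
    have : ⌈B⌉ < e := lt_of_le_of_lt (le_max_right _ _) he1
    exact lt_of_le_of_lt (Int.le_ceil B) (by exact_mod_cast this)
  have hge := E_T hB.hr hB.hd hm1 hr he he2
  obtain ⟨t, ht⟩ := exists_alive hB (n := e) (fun k => by
    have := hge k
    omega)
  refine ⟨(T d m r)^[t] e, by have := hge t; omega, ht, ?_⟩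
  intro k
  rw [← Function.iterate_add_apply]
  have h1 : (e : ℝ) ≤ ((T d m r)^[k + t] e : ℝ) := by exact_mod_cast hge (k + t)
  linarith

/-- If the exceptional set is finite no orbit is eventually `> B`. -/
theorem stay_empty (hd : 2 ≤ d) (hr : Admissible d m r) (hfin : (E d m r).Finite) :
    ∃ B : ℝ, ∀ n : ℤ, ¬ ∃ K : ℕ, ∀ k : ℕ, K ≤ k → B < ((T d m r)^[k] n : ℝ) := by
  obtain ⟨B₁, hB₁, hrB⟩ := exists_resid_bound d r
  obtain ⟨B₂, hB₂⟩ := hfin.bddAbove
  refine ⟨max B₁ B₂, ?_⟩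
  rintro n ⟨K, hK⟩
  set y₀ : ℤ := (T d m r)^[K] n with hy₀
  have hy : ∀ k, B₁ < (T d m r)^[k] y₀ ∧ B₂ < (T d m r)^[k] y₀ := by
    intro k
    have h1 := hK (k + K) (by omega)
    rw [Function.iterate_add_apply, ← hy₀] at h1
    constructor
    · exact_mod_cast lt_of_le_of_lt (le_max_left (B₁ : ℝ) B₂) h1
    · exact_mod_cast lt_of_le_of_lt (le_max_right (B₁ : ℝ) B₂) h1
  have hpos : ∀ k, 1 ≤ (T d m r)^[k] y₀ := fun k => by have := (hy k).1; omega
  -- the least point not divisible by `d`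
  have hne : ∃ a : ℕ, ∃ j : ℕ, (T d m r)^[j] y₀ = a ∧ ¬ (d : ℤ) ∣ (T d m r)^[j] y₀ := by
    obtain ⟨j, hj⟩ := exists_not_dvd hd hpos
    exact ⟨((T d m r)^[j] y₀).toNat, j, (Int.toNat_of_nonneg (by have := hpos j; omega)).symm, hj⟩
  classical
  obtain ⟨j, hj1, hj2⟩ := Nat.find_spec hne
  have hmin : ∀ i : ℕ, ¬ (d : ℤ) ∣ (T d m r)^[i] y₀ → ((Nat.find hne : ℕ) : ℤ) ≤ (T d m r)^[i] y₀ := by
    intro i hi
    have h1 : Nat.find hne ≤ ((T d m r)^[i] y₀).toNat :=
      Nat.find_le ⟨i, (Int.toNat_of_nonneg (by have := hpos i; omega)).symm, hi⟩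
    have h2 : (((T d m r)^[i] y₀).toNat : ℤ) = (T d m r)^[i] y₀ :=
      Int.toNat_of_nonneg (by have := hpos i; omega)
    omega
  set y : ℤ := (T d m r)^[j] y₀ with hyy
  have hyE : y ∈ E d m r := by
    refine ⟨by have := hpos j; omega, hj2, ?_⟩
    intro k hk
    -- the points of the `H`-orbit are points of the orbit
    have key : ∀ k : ℕ, (∀ i < k, r ((H d m r)^[i] y % (d : ℤ)) < (m : ℤ) * (H d m r)^[i] y) →
        ∃ i : ℕ, (H d m r)^[k] y = (T d m r)^[i] y₀ ∧ ¬ (d : ℤ) ∣ (T d m r)^[i] y₀ := by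
      intro k
      induction k with
      | zero => exact fun _ => ⟨j, rfl, hj2⟩
      | succ k ih =>
        intro hk
        obtain ⟨i, hi1, hi2⟩ := ih fun i hi => hk i (by omega)
        have hdef := hk k (by omega)
        rw [hi1] at hdef
        obtain ⟨h1, c, hc⟩ := H_spec hr hd hi2 hdef
        refine ⟨c + (i + 1), ?_, ?_⟩
        · rw [Function.iterate_succ_apply', hi1, Function.iterate_add_apply,
            Function.iterate_succ_apply' _ i, hc, st_iter_dvd hd]
        · rw [Function.iterate_add_apply, Function.iterate_succ_apply' _ i, hc, st_iter_dvd hd]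
          exact h1
    obtain ⟨i, hi1, hi2⟩ := key k hk
    rw [hi1, hj1]
    exact hmin i hi2
  have h1 := hB₂ hyE
  have h2 := (hy j).2
  omega

end PoolAgent.Helper28.PRG
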