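import Pool.Agent.Helper28.PRG.P7b
import Pool.Agent.Helper28.PRG.Stay

/-!
# Predecessors with a path which stays large

The proofs of `P7r`, `P7a`, `P7b` (helper9, helper52) for the pairs `(n, t)` for which all the points of the path
from `n` to `a` are at least `L`; the points between `pt u a` and `a`, `u ∈ Ch n₁`, are at least `L` if `a` is large (`path_low`).
-/

set_option autoImplicit false

namespace PoolAgent.Helper28.PRG

open Finset Pool.Agent.Helper68.Moeller Pool.Agent.Helper52.Tao Pool.Agent.Helper91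

/-- The last points of an orbit segment which ends at a large integer are large. -/
theorem path_low {d m : ℕ} {r : ℤ → ℤ} (hd : 2 ≤ d) (hdm : d < m) (hr : Admissible d m r) (L : ℤ)
    (τ₀ : ℕ) : ∃ A2 : ℤ, ∀ (z : ℤ) (j : ℕ), j ≤ τ₀ → A2 ≤ (T d m r)^[j] z → ∀ i : ℕ, i ≤ j →
      L ≤ (T d m r)^[i] z := by
  obtain ⟨B, hB0, hB⟩ := exists_resid_bound d r
  induction τ₀ with
  | zero =>
    refine ⟨L, fun z j hj h i hi => ?_⟩
    have h1 : j = 0 := by omega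
    have h2 : i = 0 := by omega
    subst h1
    subst h2
    exact h
  | succ τ₀ ih =>
    obtain ⟨A, hA⟩ := ih
    refine ⟨max ((m : ℤ) * |A| + B) (max L 0), fun z j hj h i hi => ?_⟩
    have habs : 0 ≤ |A| := abs_nonneg _
    have hmA : |A| ≤ (m : ℤ) * |A| := by
      have : (1 : ℤ) ≤ m := by omega
      nlinarith
    have h1 : (m : ℤ) * |A| + B ≤ (T d m r)^[j] z := le_trans (le_max_left _ _) h
    have h2 : max L 0 ≤ (T d m r)^[j] z := le_trans (le_max_right _ _) h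
    have hL : L ≤ (T d m r)^[j] z := le_trans (le_max_left _ _) h2
    have h0 : 0 ≤ (T d m r)^[j] z := le_trans (le_max_right _ _) h2
    have hAle := le_abs_self A
    rcases Nat.lt_or_ge j (τ₀ + 1) with hlt | hge
    · exact hA z j (by omega) (by linarith) i hi
    · have hj' : j = τ₀ + 1 := by omega
      subst hj'
      rcases Nat.lt_or_ge i (τ₀ + 1) with hi' | hi'
      · refine hA z τ₀ (le_refl _) ?_ i (by omega)
        rw [Function.iterate_succ_apply'] at h0 h1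
        by_cases hdv : (d : ℤ) ∣ (T d m r)^[τ₀] z
        · have e := d_mul_T_of_dvd (m := m) (r := r) hdv
          have hd' : (2 : ℤ) ≤ d := by exact_mod_cast hd
          nlinarith
        · have e := d_mul_T_of_not_dvd (m := m) (r := r) hr hd hdv
          obtain ⟨hp1, hp2⟩ := emod_pos hd hdv
          have h3 := abs_le.1 (hB _ hp1 hp2)
          have hd' : (2 : ℤ) ≤ d := by exact_mod_cast hd
          have h4 : (m : ℤ) * |A| ≤ (m : ℤ) * (T d m r)^[τ₀] z := by nlinarith [h3.1, h3.2]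
          have hm0 : (0 : ℤ) < m := by omega
          have h5 := le_of_mul_le_mul_left h4 hm0
          linarith
      · have : i = τ₀ + 1 := by omega
        subst this
        exact hL

open Classical in
/-- The number of the pairs `(n, t)` with `T^[t] n = a`, `1 ≤ n ≤ X`, `t ≤ τ` and a path `≥ L`. -/
noncomputable def NP (d m : ℕ) (r : ℤ → ℤ) (L a : ℤ) (X : ℝ) (τ : ℕ) : ℕ :=
  ((Icc (1 : ℤ) ⌊X⌋ ×ˢ range (τ + 1)).filter (fun y => (T d m r)^[y.2] y.1 = a ∧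
    ∀ i : ℕ, i ≤ y.2 → L ≤ (T d m r)^[i] y.1)).card

open Classical in
theorem NP_rec {P : MP} (hP : P.Ok) (L : ℤ) (n : ℕ) (a : ℤ) (X : ℝ) (τ : ℕ)
    (hL : ∀ u ∈ P.Ch n, PL.Hit P.d P.m P.r (sg u) a u → ∀ i : ℕ, i ≤ u.length →
      L ≤ (T P.d P.m P.r)^[i] (PL.pt P.d P.m P.r u a)) :
    ∑ u ∈ (P.Ch n).filter (fun w => PL.Hit P.d P.m P.r (sg w) a w ∧
        ¬ PL.Dead P.d P.m P.r (PL.pt P.d P.m P.r w a)),
      NP P.d P.m P.r L (PL.pt P.d P.m P.r u a) X τ ≤ NP P.d P.m P.r L a X (P.Tm * n + τ) := by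
  unfold NP
  rw [← Finset.card_sigma]
  have hword : ∀ u ∈ P.Ch n, PL.Hit P.d P.m P.r (sg u) a u → ∀ (k : ℤ) (t : ℕ),
      (T P.d P.m P.r)^[t] k = PL.pt P.d P.m P.r u a →
      wd P.d P.m P.r (u.length + t) k = u ++ wd P.d P.m P.r t k ∧
        (T P.d P.m P.r)^[u.length + t] k = a := by
    intro u hu hH k t hk
    have h1 := PL.pt_iter hP.base.hd hP.base.hdm hP.base.hco hP.base.hr
      (mem_Ch_props hP hu).1 hH
    refine ⟨?_, ?_⟩
    · rw [wd_add_h9, hk, h1.1]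
    · rw [Function.iterate_add_apply, hk, h1.2]
  refine Finset.card_le_card_of_injOn
    (fun z : (_ : List ℕ) × (ℤ × ℕ) => (z.2.1, z.1.length + z.2.2)) ?_ ?_
  · rintro ⟨u, k, t⟩ hz
    simp only [Finset.mem_coe, Finset.mem_sigma, Finset.mem_filter, Finset.mem_product,
      Finset.mem_range] at hz
    obtain ⟨⟨hu, hH, -⟩, ⟨hk, ht⟩, hT⟩ := hz
    simp only [Finset.mem_coe, Finset.mem_filter, Finset.mem_product, Finset.mem_range]
    have h2 := (mem_Ch_props hP hu).2.2.2.1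
    refine ⟨⟨hk, by omega⟩, (hword u hu hH k t hT.1).2, ?_⟩
    intro i hi
    rcases le_total i t with hit | hit
    · exact hT.2 i hit
    · obtain ⟨j, rfl⟩ := Nat.exists_eq_add_of_le hit
      rw [Nat.add_comm t j, Function.iterate_add_apply, hT.1]
      exact hL u hu hH j (by omega)
  · rintro ⟨u, k, t⟩ hz ⟨u', k', t'⟩ hz' heq
    simp only [Finset.mem_coe, Finset.mem_sigma, Finset.mem_filter, Finset.mem_product,
      Finset.mem_range] at hz hz'
    obtain ⟨⟨hu, hH, -⟩, ⟨hk, ht⟩, hT⟩ := hz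
    obtain ⟨⟨hu', hH', -⟩, ⟨hk', ht'⟩, hT'⟩ := hz'
    simp only [Prod.mk.injEq] at heq
    obtain ⟨h1, h2⟩ := heq
    subst h1
    have h3 := (hword u hu hH k t hT.1).1
    have h4 := (hword u' hu' hH' k t' hT'.1).1
    rw [h2] at h3
    rw [h3] at h4
    obtain ⟨h5, -⟩ := Ch_cancel hP hu hu' h4
    subst h5
    have h6 : t = t' := by omega
    subst h6
    rfl


open Classical in
theorem one_le_NP (d m : ℕ) (r : ℤ → ℤ) {L a : ℤ} (hLa : L ≤ a) (ha : 1 ≤ a) {X : ℝ} (hX : (a : ℝ) ≤ X)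
    (τ : ℕ) : 1 ≤ NP d m r L a X τ := by
  unfold NP
  rw [Nat.one_le_iff_ne_zero, Ne, Finset.card_eq_zero, ← Ne, ← Finset.nonempty_iff_ne_empty]
  refine ⟨(a, 0), ?_⟩
  simp only [Finset.mem_filter, Finset.mem_product, Finset.mem_Icc, Finset.mem_range]
  refine ⟨⟨⟨ha, Int.le_floor.2 hX⟩, by omega⟩, rfl, ?_⟩
  intro i hi
  have : i = 0 := by omega
  subst this
  exact hLa

open Classical in
theorem tree_path {P : MP} (hP : P.Ok) (L : ℤ) {g : ℝ} (hg : 0 < g) {n₁ : ℕ} (hn : 1 ≤ n₁) {ε : ℝ}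
    (hε : 0 < ε) (h : ∀ a : ℤ, ¬ PL.Dead P.d P.m P.r a →
      1 + ε ≤ ∑ w ∈ (P.Ch n₁).filter (fun w => PL.Hit P.d P.m P.r (sg w) a w ∧
        ¬ PL.Dead P.d P.m P.r (PL.pt P.d P.m P.r w a)), Real.exp (-(g * P.x w))) :
    ∃ (A1 : ℤ) (c3 κ : ℝ), 1 ≤ A1 ∧ 0 < c3 ∧ 0 < κ ∧ ∀ (J : ℕ) (a : ℤ) (X : ℝ), A1 ≤ a →
      ¬ PL.Dead P.d P.m P.r a → (a : ℝ) ≤ X → X ≤ Real.exp (κ * J) * a →
        c3 * (X / a) ^ g ≤ NP P.d P.m P.r L a X (P.Tm * n₁ * J) := by
  obtain ⟨C2, hC2, hsb⟩ := scale_bounds hP n₁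
  obtain ⟨A2, hA2⟩ := path_low (m := P.m) (r := P.r) hP.base.hd hP.base.hdm hP.base.hr L (P.Tm * n₁)
  have hx1 := hP.hx
  have hb : (1 : ℝ) ≤ P.b := by exact_mod_cast hP.hb
  have hn' : (1 : ℝ) ≤ n₁ := by exact_mod_cast hn
  obtain ⟨xlo, hxlo⟩ : ∃ xlo : ℝ, xlo = P.x1 * P.b * n₁ := ⟨_, rfl⟩
  obtain ⟨xhi, hxhi⟩ : ∃ xhi : ℝ, xhi = P.Tm * n₁ * Real.log P.d := ⟨_, rfl⟩
  have hxlo0 : 0 < xlo := by rw [hxlo]; positivity
  have hd1 : (1 : ℝ) ≤ P.d := by
    have := hP.base.hd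
    have h2 : 1 ≤ P.d := by omega
    exact_mod_cast h2
  have hxhi0 : 0 ≤ xhi := by
    rw [hxhi]
    have := Real.log_nonneg hd1
    positivity
  obtain ⟨κ, hκd⟩ : ∃ κ : ℝ, κ = xlo / 2 := ⟨_, rfl⟩
  have hκ : 0 < κ := by rw [hκd]; linarith
  have he : 0 < Real.exp xlo - Real.exp κ := by
    have : Real.exp κ < Real.exp xlo := Real.exp_lt_exp.2 (by rw [hκd]; linarith)
    linarith
  obtain ⟨η, hηd⟩ : ∃ η : ℝ, η = (1 + ε) ^ (1 / g) - 1 := ⟨_, rfl⟩
  have hη : 0 < η := by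
    have h1 := Real.one_lt_rpow (by linarith : (1 : ℝ) < 1 + ε) (by positivity : (0 : ℝ) < 1 / g)
    rw [hηd]; linarith
  obtain ⟨N1, hN1⟩ := exists_nat_ge (C2 / (Real.exp xlo - Real.exp κ) + C2 / η + 1 + |(A2 : ℝ)|)
  have hN1' : (1 : ℝ) ≤ N1 := by
    have h1 : 0 ≤ C2 / (Real.exp xlo - Real.exp κ) := div_nonneg hC2 he.le
    have h2 : 0 ≤ C2 / η := div_nonneg hC2 hη.le
    have h3 : 0 ≤ |(A2 : ℝ)| := abs_nonneg _
    linarith
  have hbase : 0 < Real.exp xhi * (1 + C2) := by positivity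
  have hc3 : 0 < (Real.exp xhi * (1 + C2)) ^ (-g) := Real.rpow_pos_of_pos hbase _
  obtain ⟨c3, hc3d⟩ : ∃ c3 : ℝ, c3 = (Real.exp xhi * (1 + C2)) ^ (-g) := ⟨_, rfl⟩
  rw [← hc3d] at hc3
  -- facts for `a ≥ N1`
  have hfact : ∀ a : ℤ, (N1 : ℤ) ≤ a → (1 : ℝ) ≤ a ∧
      C2 ≤ (Real.exp xlo - Real.exp κ) * a ∧ (1 + C2 / a) ^ g ≤ 1 + ε := by
    intro a ha
    have ha' : (N1 : ℝ) ≤ a := by exact_mod_cast ha
    have h1 : 0 ≤ C2 / (Real.exp xlo - Real.exp κ) := div_nonneg hC2 he.le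
    have h2 : 0 ≤ C2 / η := div_nonneg hC2 hη.le
    have ha1 : (1 : ℝ) ≤ a := le_trans hN1' ha'
    have habs : 0 ≤ |(A2 : ℝ)| := abs_nonneg _
    refine ⟨ha1, ?_, ?_⟩
    · have h3 : C2 / (Real.exp xlo - Real.exp κ) ≤ a := by linarith
      rw [div_le_iff₀ he] at h3
      linarith
    · have h3 : C2 / η ≤ a := by linarith
      rw [div_le_iff₀ hη] at h3
      have h4 : C2 / a ≤ η := by
        rw [div_le_iff₀ (by linarith)]
        linarith
      have h5 : 1 + C2 / a ≤ (1 + ε) ^ (1 / g) := by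
        rw [hηd] at h4; linarith
      have h6 : 0 ≤ 1 + C2 / (a : ℝ) := by positivity
      calc (1 + C2 / (a : ℝ)) ^ g ≤ ((1 + ε) ^ (1 / g)) ^ g := Real.rpow_le_rpow h6 h5 hg.le
        _ = 1 + ε := by
          rw [← Real.rpow_mul (by linarith), one_div, inv_mul_cancel₀ hg.ne', Real.rpow_one]
  -- the paths
  have hlow : ∀ a : ℤ, (N1 : ℤ) ≤ a → L ≤ a ∧ ∀ u ∈ P.Ch n₁, PL.Hit P.d P.m P.r (sg u) a u →
      ∀ i : ℕ, i ≤ u.length → L ≤ (T P.d P.m P.r)^[i] (PL.pt P.d P.m P.r u a) := by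
    intro a ha
    have ha' : (N1 : ℝ) ≤ a := by exact_mod_cast ha
    have h1 : 0 ≤ C2 / (Real.exp xlo - Real.exp κ) := div_nonneg hC2 he.le
    have h2 : 0 ≤ C2 / η := div_nonneg hC2 hη.le
    have h3 : (A2 : ℝ) ≤ a := by
      have := le_abs_self (A2 : ℝ)
      linarith
    have h4 : A2 ≤ a := by exact_mod_cast h3
    refine ⟨hA2 a 0 (Nat.zero_le _) h4 0 (le_refl _), ?_⟩
    intro u hu hH i hi
    obtain ⟨hW, -, -, hlen, -⟩ := mem_Ch_props hP hu
    refine hA2 _ u.length hlen ?_ i hi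
    rw [(PL.pt_iter hP.base.hd hP.base.hdm hP.base.hco hP.base.hr hW hH).2]
    exact h4
  -- bounds of the points
  have hpt : ∀ a : ℤ, (N1 : ℤ) ≤ a → ∀ u ∈ P.Ch n₁, PL.Hit P.d P.m P.r (sg u) a u →
      Real.exp κ * a ≤ (PL.pt P.d P.m P.r u a : ℝ) ∧
      (PL.pt P.d P.m P.r u a : ℝ) ≤ Real.exp (P.x u) * a * (1 + C2 / a) ∧
      (PL.pt P.d P.m P.r u a : ℝ) ≤ Real.exp xhi * (1 + C2) * a := by
    intro a ha u hu hH
    obtain ⟨ha1, hf1, -⟩ := hfact a ha
    obtain ⟨hl, hr, hab⟩ := hsb u hu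
    rw [← hxlo] at hl
    rw [← hxhi] at hr
    have h1 := abs_le.1 (hab a hH)
    have hexl : Real.exp xlo ≤ Real.exp (P.x u) := Real.exp_le_exp.2 hl
    have hexr : Real.exp (P.x u) ≤ Real.exp xhi := Real.exp_le_exp.2 hr
    have hex1 : 1 ≤ Real.exp (P.x u) := by
      rw [← Real.exp_zero]
      exact Real.exp_le_exp.2 (by linarith)
    have ha0 : (a : ℝ) ≠ 0 := by linarith
    have h2 : Real.exp xlo * a ≤ Real.exp (P.x u) * a :=
      mul_le_mul_of_nonneg_right hexl (by linarith)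
    have h3 : Real.exp (P.x u) * a ≤ Real.exp xhi * a :=
      mul_le_mul_of_nonneg_right hexr (by linarith)
    refine ⟨?_, ?_, ?_⟩
    · nlinarith [h1.1]
    · have h4 : Real.exp (P.x u) * a * (1 + C2 / a) =
          Real.exp (P.x u) * a + Real.exp (P.x u) * C2 := by
        field_simp
      rw [h4]
      have h5 : C2 ≤ Real.exp (P.x u) * C2 := le_mul_of_one_le_left hC2 hex1
      linarith [h1.2]
    · have hxh1 : 1 ≤ Real.exp xhi := le_trans hex1 hexr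
      have h5 : C2 ≤ Real.exp xhi * C2 := le_mul_of_one_le_left hC2 hxh1
      have h6 : Real.exp xhi * C2 ≤ Real.exp xhi * C2 * a :=
        le_mul_of_one_le_right (by positivity) ha1
      have h7 : Real.exp xhi * (1 + C2) * a = Real.exp xhi * a + Real.exp xhi * C2 * a := by ring
      rw [h7]
      linarith [h1.2]
  -- the trivial case
  have htriv : ∀ (a : ℤ) (X : ℝ) (τ : ℕ), (N1 : ℤ) ≤ a → (a : ℝ) ≤ X →
      X ≤ Real.exp xhi * (1 + C2) * a → c3 * (X / a) ^ g ≤ NP P.d P.m P.r L a X τ := by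
    intro a X τ ha haX hX
    obtain ⟨ha1, -, -⟩ := hfact a ha
    have ha1' : 1 ≤ a := by exact_mod_cast ha1
    have h1 : X / a ≤ Real.exp xhi * (1 + C2) := by
      rw [div_le_iff₀ (by linarith)]
      exact hX
    have h2 : (X / a) ^ g ≤ (Real.exp xhi * (1 + C2)) ^ g :=
      Real.rpow_le_rpow (div_nonneg (by linarith) (by linarith)) h1 hg.le
    have h3 : c3 * (X / a) ^ g ≤ 1 := by
      calc c3 * (X / a) ^ g ≤ c3 * (Real.exp xhi * (1 + C2)) ^ g :=
            mul_le_mul_of_nonneg_left h2 hc3.le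
        _ = 1 := by
          rw [hc3d, ← Real.rpow_add hbase, neg_add_cancel, Real.rpow_zero]
    have h4 : (1 : ℝ) ≤ NP P.d P.m P.r L a X τ := by
      exact_mod_cast one_le_NP P.d P.m P.r (hlow a ha).1 ha1' haX τ
    linarith
  have hN1z : (1 : ℤ) ≤ (N1 : ℤ) := by exact_mod_cast hN1'
  refine ⟨N1, c3, κ, hN1z, hc3, hκ, ?_⟩
  intro J
  induction J with
  | zero =>
    intro a X ha hda haX hX
    apply htriv a X _ ha haX
    obtain ⟨ha1, -, -⟩ := hfact a ha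
    have h1 : X ≤ a := by simpa using hX
    have h2 : 1 ≤ Real.exp xhi := Real.one_le_exp hxhi0
    have h3 : 1 ≤ Real.exp xhi * (1 + C2) := by nlinarith
    nlinarith
  | succ J ih =>
    intro a X ha hda haX hX
    obtain ⟨ha1, -, hf2⟩ := hfact a ha
    by_cases hall : ∀ u ∈ (P.Ch n₁).filter (fun w => PL.Hit P.d P.m P.r (sg w) a w ∧
        ¬ PL.Dead P.d P.m P.r (PL.pt P.d P.m P.r w a)), (PL.pt P.d P.m P.r u a : ℝ) ≤ X
    · have hrec := NP_rec hP L n₁ a X (P.Tm * n₁ * J) (hlow a ha).2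
      have hτ : P.Tm * n₁ + P.Tm * n₁ * J = P.Tm * n₁ * (J + 1) := by ring
      rw [hτ] at hrec
      have hrec' : ∑ u ∈ (P.Ch n₁).filter (fun w => PL.Hit P.d P.m P.r (sg w) a w ∧
          ¬ PL.Dead P.d P.m P.r (PL.pt P.d P.m P.r w a)),
          (NP P.d P.m P.r L (PL.pt P.d P.m P.r u a) X (P.Tm * n₁ * J) : ℝ) ≤
          NP P.d P.m P.r L a X (P.Tm * n₁ * (J + 1)) := by exact_mod_cast hrec
      refine le_trans ?_ hrec'
      have hstep : ∀ u ∈ (P.Ch n₁).filter (fun w => PL.Hit P.d P.m P.r (sg w) a w ∧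
          ¬ PL.Dead P.d P.m P.r (PL.pt P.d P.m P.r w a)),
          c3 * (X / a) ^ g * (1 + ε)⁻¹ * Real.exp (-(g * P.x u)) ≤
          (NP P.d P.m P.r L (PL.pt P.d P.m P.r u a) X (P.Tm * n₁ * J) : ℝ) := by
        intro u hu
        have hpX := hall u hu
        rw [Finset.mem_filter] at hu
        obtain ⟨huC, hH, hal⟩ := hu
        obtain ⟨hp1, hp2, -⟩ := hpt a ha u huC hH
        have hpa : (a : ℝ) ≤ PL.pt P.d P.m P.r u a := by
          have h1 : 1 ≤ Real.exp κ := Real.one_le_exp hκ.le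
          nlinarith
        have hpaz : a ≤ PL.pt P.d P.m P.r u a := by exact_mod_cast hpa
        have hp0 : (0 : ℝ) < PL.pt P.d P.m P.r u a := by linarith
        have hX2 : X ≤ Real.exp (κ * J) * (PL.pt P.d P.m P.r u a : ℤ) := by
          have h1 : Real.exp (κ * ((J + 1 : ℕ) : ℝ)) = Real.exp (κ * J) * Real.exp κ := by
            rw [← Real.exp_add]; push_cast; ring_nf
          rw [h1, mul_assoc] at hX
          exact le_trans hX (mul_le_mul_of_nonneg_left hp1 (Real.exp_pos _).le)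
        have hI := ih (PL.pt P.d P.m P.r u a) X (le_trans ha hpaz) hal hpX hX2
        refine le_trans ?_ hI
        rw [mul_assoc, mul_assoc c3]
        refine mul_le_mul_of_nonneg_left ?_ hc3.le
        have hq : 0 < 1 + C2 / (a : ℝ) := by positivity
        have hXa : 0 ≤ X / (a : ℝ) := div_nonneg (by linarith) (by linarith)
        have h1 : X / a * (Real.exp (-P.x u) * (1 + C2 / a)⁻¹) ≤
            X / (PL.pt P.d P.m P.r u a : ℝ) := by
          have h2 : X / a * (Real.exp (-P.x u) * (1 + C2 / a)⁻¹) =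
              X / (Real.exp (P.x u) * a * (1 + C2 / a)) := by
            rw [Real.exp_neg]
            have hE := (Real.exp_pos (P.x u)).ne'
            have ha0 : (a : ℝ) ≠ 0 := by linarith
            rw [div_mul_eq_mul_div, ← mul_inv, ← div_eq_mul_inv, div_div]
            congr 1
            ring
          rw [h2]
          exact div_le_div_of_nonneg_left (by linarith) hp0 hp2
        have h3 : (X / a * (Real.exp (-P.x u) * (1 + C2 / a)⁻¹)) ^ g ≤
            (X / (PL.pt P.d P.m P.r u a : ℝ)) ^ g :=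
          Real.rpow_le_rpow (by positivity) h1 hg.le
        refine le_trans ?_ h3
        rw [Real.mul_rpow hXa (by positivity), Real.mul_rpow (Real.exp_pos _).le (by positivity),
          ← Real.exp_mul, Real.inv_rpow hq.le]
        refine mul_le_mul_of_nonneg_left ?_ (Real.rpow_nonneg hXa _)
        have h4 : -P.x u * g = -(g * P.x u) := by ring
        rw [h4, mul_comm]
        refine mul_le_mul_of_nonneg_left ?_ (Real.exp_pos _).le
        exact inv_anti₀ (Real.rpow_pos_of_pos hq _) hf2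
      refine le_trans ?_ (Finset.sum_le_sum hstep)
      rw [← Finset.mul_sum]
      have hs := h a hda
      have hpos : 0 ≤ c3 * (X / a) ^ g * (1 + ε)⁻¹ := by
        have : 0 ≤ X / (a : ℝ) := div_nonneg (by linarith) (by linarith)
        positivity
      calc c3 * (X / a) ^ g = c3 * (X / a) ^ g * (1 + ε)⁻¹ * (1 + ε) := by
            rw [mul_assoc, inv_mul_cancel₀ (by linarith), mul_one]
        _ ≤ _ := mul_le_mul_of_nonneg_left hs hpos
    · push Not at hall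
      obtain ⟨u, hu, hXu⟩ := hall
      rw [Finset.mem_filter] at hu
      obtain ⟨huC, hH, -⟩ := hu
      obtain ⟨-, -, hp3⟩ := hpt a ha u huC hH
      exact htriv a X _ ha haX (by linarith)

/-- The positive integers `≤ x` with a path `≥ L` to `a`. -/
def PSp (d m : ℕ) (r : ℤ → ℤ) (L a : ℤ) (x : ℝ) : Set ℤ :=
  {n : ℤ | (∃ t : ℕ, (T d m r)^[t] n = a ∧ ∀ i : ℕ, i ≤ t → L ≤ (T d m r)^[i] n) ∧
    0 < n ∧ (n : ℝ) ≤ x}

theorem PSp_fin (d m : ℕ) (r : ℤ → ℤ) (L a : ℤ) (x : ℝ) : (PSp d m r L a x).Finite := by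
  refine (Finset.finite_toSet (Icc (1 : ℤ) ⌊x⌋)).subset ?_
  intro n hn
  rw [Finset.coe_Icc, Set.mem_Icc]
  exact ⟨hn.2.1, Int.le_floor.2 hn.2.2⟩

open Classical in
theorem NP_le (d m : ℕ) (r : ℤ → ℤ) (L a : ℤ) (x : ℝ) (τ : ℕ) :
    NP d m r L a x τ ≤ (PSp d m r L a x).ncard * (τ + 1) := by
  unfold NP
  have h1 : (Icc (1 : ℤ) ⌊x⌋ ×ˢ range (τ + 1)).filter (fun y => (T d m r)^[y.2] y.1 = a ∧
      ∀ i : ℕ, i ≤ y.2 → L ≤ (T d m r)^[i] y.1) ⊆
      (PSp_fin d m r L a x).toFinset ×ˢ range (τ + 1) := by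
    intro y hy
    rw [Finset.mem_filter, Finset.mem_product, Finset.mem_Icc] at hy
    rw [Finset.mem_product, Set.Finite.mem_toFinset]
    refine ⟨⟨⟨y.2, hy.2⟩, by omega, ?_⟩, hy.1.2⟩
    exact Int.le_floor.1 hy.1.1.2
  refine (Finset.card_le_card h1).trans (le_of_eq ?_)
  rw [Finset.card_product, Finset.card_range, Set.ncard_eq_toFinset_card _ (PSp_fin d m r L a x)]

theorem path_count {d m : ℕ} {r : ℤ → ℤ} {g g' : ℝ} (hgg : g < g') {L : ℤ}
    {A1 : ℤ} {c3 κ : ℝ} {T₀ : ℕ} (hA1 : 1 ≤ A1) (hc3 : 0 < c3) (hκ : 0 < κ)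
    (h : ∀ (J : ℕ) (a : ℤ) (X : ℝ), A1 ≤ a → ¬ PL.Dead d m r a → (a : ℝ) ≤ X →
      X ≤ Real.exp (κ * J) * a → c3 * (X / a) ^ g' ≤ NP d m r L a X (T₀ * J)) :
    ∃ c : ℝ, 0 < c ∧ ∀ (a : ℤ) (x : ℝ), A1 ≤ a → ¬ PL.Dead d m r a → (a : ℝ) ≤ x →
      c * (x / a) ^ g ≤ ((PSp d m r L a x).ncard : ℝ) := by
  classical
  set δ : ℝ := g' - g with hδ
  have hδ0 : 0 < δ := by rw [hδ]; linarith
  set C : ℝ := T₀ / (κ * δ) + T₀ + 1 with hC
  have hC0 : 0 < C := by rw [hC]; positivity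
  refine ⟨c3 / C, by positivity, ?_⟩
  intro a x ha hal hax
  have ha0 : (0 : ℝ) < a := by
    have : (1 : ℤ) ≤ a := hA1.trans ha
    have h2 : (1 : ℝ) ≤ a := by exact_mod_cast this
    linarith
  set y : ℝ := x / a with hy
  have hy1 : 1 ≤ y := by rw [hy, le_div_iff₀ ha0, one_mul]; exact hax
  have hy0 : 0 < y := by linarith
  set J : ℕ := ⌈Real.log y / κ⌉₊ with hJ
  have hlog0 : 0 ≤ Real.log y := Real.log_nonneg hy1
  have hJ1 : Real.log y / κ ≤ J := Nat.le_ceil _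
  have hJ2 : (J : ℝ) < Real.log y / κ + 1 := Nat.ceil_lt_add_one (by positivity)
  have hx1 : x ≤ Real.exp (κ * J) * a := by
    rw [div_le_iff₀ hκ] at hJ1
    have h2 : y ≤ Real.exp (κ * J) := by
      rw [← Real.log_le_iff_le_exp hy0]
      linarith
    rw [hy, div_le_iff₀ ha0] at h2
    exact h2
  have h3 := h J a x ha hal hax hx1
  have h4 : (NP d m r L a x (T₀ * J) : ℝ) ≤ ((PSp d m r L a x).ncard : ℝ) * (T₀ * J + 1) := by
    have := NP_le d m r L a x (T₀ * J)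
    exact_mod_cast this
  have h5 : (T₀ * J + 1 : ℝ) ≤ C * y ^ δ := by
    have h6 : Real.log y ≤ y ^ δ / δ := Real.log_le_rpow_div hy0.le hδ0
    have h7 : 1 ≤ y ^ δ := Real.one_le_rpow hy1 hδ0.le
    have h8 : (T₀ : ℝ) * J ≤ T₀ * (Real.log y / κ + 1) :=
      mul_le_mul_of_nonneg_left hJ2.le (Nat.cast_nonneg _)
    have h9 : (T₀ : ℝ) * (Real.log y / κ) ≤ T₀ * (y ^ δ / δ / κ) := by gcongr
    have h10 : (T₀ : ℝ) * (y ^ δ / δ / κ) = T₀ / (κ * δ) * y ^ δ := by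
      field_simp
    have h11 : (T₀ : ℝ) ≤ T₀ * y ^ δ := le_mul_of_one_le_right (Nat.cast_nonneg _) h7
    rw [hC]
    nlinarith
  have h6 : c3 * y ^ g' ≤ ((PSp d m r L a x).ncard : ℝ) * (C * y ^ δ) :=
    (h3.trans h4).trans (mul_le_mul_of_nonneg_left h5 (Nat.cast_nonneg _))
  have h7 : y ^ g' = y ^ g * y ^ δ := by
    rw [← Real.rpow_add hy0, hδ]
    congr 1
    ring
  have hyδ : 0 < y ^ δ := Real.rpow_pos_of_pos hy0 _
  rw [h7] at h6
  have h8 : c3 * y ^ g ≤ ((PSp d m r L a x).ncard : ℝ) * C := by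
    have h9 : (c3 * y ^ g) * y ^ δ ≤ (((PSp d m r L a x).ncard : ℝ) * C) * y ^ δ := by
      calc (c3 * y ^ g) * y ^ δ = c3 * (y ^ g * y ^ δ) := by ring
        _ ≤ ((PSp d m r L a x).ncard : ℝ) * (C * y ^ δ) := h6
        _ = _ := by ring
    exact le_of_mul_le_mul_right h9 hyδ
  rw [div_mul_eq_mul_div, div_le_iff₀ hC0]
  exact h8

end PoolAgent.Helper28.PRG
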