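import Pool.Agent.Helper28.PRG.Fin
import Pool.Agent.Helper28.PRG.P9
import Pool.Agent.Helper8.GrowthInR

/-!
# Consequences for the exceptional set and for the map `3x + 1`
-/

set_option autoImplicit false

namespace PoolAgent.Helper28.PRG

open Finset Pool.Agent.Helper68.Moeller Pool.Agent.Helper52.Tao Pool.Agent.Helper91

variable {d m : ℕ} {r : ℤ → ℤ}

theorem exists_base (hd : 2 ≤ d) (hdm : d < m) (hco : Nat.Coprime m d)
    (hw : (m : ℝ) ≤ (d : ℝ) ^ ((d : ℝ) / ((d : ℝ) - 1))) (hr : Admissible d m r) :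
    ∃ s0 : ℕ, Base d m m 1 s0 r := by
  obtain ⟨s0, hc1, hc2⟩ := dead_modG (r := r) hd hdm hco hr
  exact ⟨s0, hd, hdm, hco, hr, by omega, le_refl _, (pow_one m).symm, hw, hc1, hc2⟩

/-- A set which contains the integers whose orbit contains `a`. -/
theorem count_ge_of_pred {A : Set ℤ} {a : ℤ} (ha : 1 ≤ a)
    (hA : ∀ n : ℤ, (∃ t : ℕ, (T d m r)^[t] n = a) → n ∈ A) {c g : ℝ} (hc : 0 < c)
    (h : ∀ x : ℝ, (a : ℝ) ≤ x →
      c * (x / a) ^ g ≤ ({n : ℤ | (∃ t : ℕ, (T d m r)^[t] n = a) ∧ 0 < n ∧ (n : ℝ) ≤ x}.ncard : ℝ)) :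
    ∃ c' : ℝ, 0 < c' ∧ ∃ X : ℝ, ∀ x : ℝ, X ≤ x →
      c' * x ^ g ≤ ({n : ℤ | n ∈ A ∧ 0 < n ∧ (n : ℝ) ≤ x}.ncard : ℝ) := by
  have ha0 : (0 : ℝ) < a := by exact_mod_cast (by omega : 0 < a)
  refine ⟨c / (a : ℝ) ^ g, by positivity, a, fun x hx => ?_⟩
  have h1 := h x hx
  rw [Real.div_rpow (by linarith) ha0.le] at h1
  have h2 : c / (a : ℝ) ^ g * x ^ g = c * (x ^ g / (a : ℝ) ^ g) := by ring
  rw [h2]
  refine h1.trans ?_
  have hfin : {n : ℤ | n ∈ A ∧ 0 < n ∧ (n : ℝ) ≤ x}.Finite := by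
    refine (Set.finite_Icc (1 : ℤ) ⌊x⌋).subset ?_
    rintro n ⟨-, h1, h2⟩
    exact ⟨h1, Int.le_floor.2 h2⟩
  have hsub : {n : ℤ | (∃ t : ℕ, (T d m r)^[t] n = a) ∧ 0 < n ∧ (n : ℝ) ≤ x} ⊆
      {n : ℤ | n ∈ A ∧ 0 < n ∧ (n : ℝ) ≤ x} := fun n hn => ⟨hA n hn.1, hn.2⟩
  exact_mod_cast Set.ncard_le_ncard hsub hfin

/-- Predecessors with a path which stays large. -/
theorem exponent_path (hd : 2 ≤ d) (hdm : d < m) (hco : Nat.Coprime m d)
    (hw : (m : ℝ) ≤ (d : ℝ) ^ ((d : ℝ) / ((d : ℝ) - 1)))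
    (hr : Admissible d m r) {g : ℝ} (hg : g < 1) (L : ℤ) :
    ∃ c : ℝ, 0 < c ∧ ∃ A1 : ℤ, 1 ≤ A1 ∧ ∀ (a : ℤ) (x : ℝ), A1 ≤ a → ¬ PL.Dead d m r a →
      (a : ℝ) ≤ x → c * (x / a) ^ g ≤ ((PSp d m r L a x).ncard : ℝ) := by
  obtain ⟨s0, hB⟩ := exists_base hd hdm hco hw hr
  have hmix : Mixing d m r := mixing hd hdm hco (mixing_step hd hdm hco hw hr
    (fourier_decay hd hdm hco hw hr (one_block hd hdm hco hw)))
  obtain ⟨g', hg'1, hg'2, hg'3⟩ : ∃ g' : ℝ, g < g' ∧ g' < 1 ∧ 0 < g' := by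
    have h1 := le_max_left g 0
    have h3 := le_max_right g 0
    have h2 : max g 0 < 1 := max_lt hg (by norm_num)
    exact ⟨(max g 0 + 1) / 2, by linarith, by linarith, by linarith⟩
  obtain ⟨P, hP, rfl, rfl, -, -, rfl, rfl, n, hn, ε, hε, hZ⟩ :=
    exists_growth hB hmix hg'3.le hg'2
  obtain ⟨A1, c3, κ, hA1, hc3, hκ, h⟩ := tree_path hP L hg'3 hn hε hZ
  obtain ⟨c, hc, h'⟩ := path_count hg'1 hA1 hc3 hκ h
  exact ⟨c, hc, A1, hA1, h'⟩

/-- If the exceptional set is infinite, the orbits which stay large have the exponent one. -/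
theorem stay_large (hd : 2 ≤ d) (hdm : d < m) (hco : Nat.Coprime m d)
    (hw : (m : ℝ) ≤ (d : ℝ) ^ ((d : ℝ) / ((d : ℝ) - 1)))
    (hr : Admissible d m r) (hinf : (E d m r).Infinite) (B : ℝ) {g : ℝ} (hg : g < 1) :
    ∃ c : ℝ, 0 < c ∧ ∃ X : ℝ, ∀ x : ℝ, X ≤ x →
      c * x ^ g ≤ ({n : ℤ | n ∈ {n : ℤ | ∀ k : ℕ, B < ((T d m r)^[k] n : ℝ)} ∧
        0 < n ∧ (n : ℝ) ≤ x}.ncard : ℝ) := by
  obtain ⟨s0, hB⟩ := exists_base hd hdm hco hw hr
  obtain ⟨c, hc, A1, hA1, h⟩ := exponent_path hd hdm hco hw hr hg (⌊B⌋ + 1)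
  obtain ⟨a, ha1, ha2, ha3⟩ := alive_above hB hinf (max B A1)
  have ha4 : A1 ≤ a := by
    have h1 := ha3 0
    rw [Function.iterate_zero, id_eq] at h1
    have h2 : (A1 : ℝ) < a := lt_of_le_of_lt (le_max_right _ _) h1
    exact_mod_cast h2.le
  have ha0 : (0 : ℝ) < a := by exact_mod_cast (by omega : 0 < a)
  refine ⟨c / (a : ℝ) ^ g, by positivity, a, fun x hx => ?_⟩
  have h1 := h a x ha4 ha2 hx
  rw [Real.div_rpow (by linarith) ha0.le] at h1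
  have h2 : c / (a : ℝ) ^ g * x ^ g = c * (x ^ g / (a : ℝ) ^ g) := by ring
  rw [h2]
  refine h1.trans ?_
  have hfin : {n : ℤ | n ∈ {n : ℤ | ∀ k : ℕ, B < ((T d m r)^[k] n : ℝ)} ∧ 0 < n ∧
      (n : ℝ) ≤ x}.Finite := by
    refine (Set.finite_Icc (1 : ℤ) ⌊x⌋).subset ?_
    rintro n ⟨-, h1, h2⟩
    exact ⟨h1, Int.le_floor.2 h2⟩
  have hsub : PSp d m r (⌊B⌋ + 1) a x ⊆
      {n : ℤ | n ∈ {n : ℤ | ∀ k : ℕ, B < ((T d m r)^[k] n : ℝ)} ∧ 0 < n ∧ (n : ℝ) ≤ x} := by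
    rintro n ⟨⟨t, ht1, ht2⟩, hn⟩
    refine ⟨fun k => ?_, hn⟩
    rcases le_total k t with hk | hk
    · have h3 := ht2 k hk
      have h4 : ((⌊B⌋ + 1 : ℤ) : ℝ) ≤ ((T d m r)^[k] n : ℝ) := by exact_mod_cast h3
      push_cast at h4
      have h5 := Int.lt_floor_add_one B
      linarith
    · obtain ⟨j, rfl⟩ := Nat.exists_eq_add_of_le hk
      rw [Nat.add_comm t j, Function.iterate_add_apply, ht1]
      exact lt_of_le_of_lt (le_max_left _ _) (ha3 j)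
  exact_mod_cast Set.ncard_le_ncard hsub hfin

/-- One counterexample to the `3x + 1` conjecture gives many of them. -/
theorem three_many {n₀ : ℤ} (hn₀ : 0 < n₀) (h1 : ∀ t : ℕ, (T 2 3 (fun _ => -1))^[t] n₀ ≠ 1) {g : ℝ}
    (hg : g < 1) :
    ∃ c : ℝ, 0 < c ∧ ∃ X : ℝ, ∀ x : ℝ, X ≤ x →
      c * x ^ g ≤ ({n : ℤ | n ∈ {n : ℤ | ∀ t : ℕ, (T 2 3 (fun _ => -1))^[t] n ≠ 1} ∧
        0 < n ∧ (n : ℝ) ≤ x}.ncard : ℝ) := by
  have hd : 2 ≤ 2 := le_refl 2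
  have hdm : 2 < 3 := by norm_num
  have hco : Nat.Coprime 3 2 := by norm_num
  have hw : ((3 : ℕ) : ℝ) ≤ ((2 : ℕ) : ℝ) ^ (((2 : ℕ) : ℝ) / (((2 : ℕ) : ℝ) - 1)) := by
    push_cast
    have : (2 : ℝ) / (2 - 1) = 2 := by norm_num
    rw [this]
    norm_num
  have hr : Admissible 2 3 (fun _ => -1) := by
    intro j hj1 hj2
    have : j = 1 := by
      push_cast at hj2
      omega
    subst this
    decide
  obtain ⟨s0, hB⟩ := exists_base hd hdm hco hw hr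
  have hpos : ∀ k : ℕ, 1 ≤ (T 2 3 (fun _ => -1))^[k] n₀ := by
    intro k
    induction k with
    | zero => exact hn₀
    | succ k ih =>
      rw [Function.iterate_succ_apply']
      exact Pool.Agent.Helper8.GrowthInR.T_pos hd hr (by intros; norm_num) (by omega)
  obtain ⟨t, ht⟩ := exists_alive hB hpos
  obtain ⟨c, hc, h⟩ := exponent_one hd hdm hco hw hr hg
  refine count_ge_of_pred (hpos t) ?_ hc fun x hx => h _ x (hpos t) ht hx
  rintro n ⟨s, hs⟩ i hi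
  have hT1 : T 2 3 (fun _ => -1) 1 = 2 := by decide
  have hT2 : T 2 3 (fun _ => -1) 2 = 1 := by decide
  rcases le_total i s with hle | hle
  · obtain ⟨j, rfl⟩ := Nat.exists_eq_add_of_le hle
    rw [Nat.add_comm i j, Function.iterate_add_apply, hi] at hs
    have h12 : ∀ j : ℕ, (T 2 3 (fun _ => -1))^[j] 1 = 1 ∨ (T 2 3 (fun _ => -1))^[j] 1 = 2 := by
      intro j
      induction j with
      | zero => exact Or.inl rfl
      | succ j ih =>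
        rw [Function.iterate_succ_apply']
        rcases ih with ih | ih
        · rw [ih, hT1]
          exact Or.inr rfl
        · rw [ih, hT2]
          exact Or.inl rfl
    rcases h12 j with h2 | h2
    · exact h1 t (hs.symm.trans h2)
    · refine h1 (t + 1) ?_
      rw [Function.iterate_succ_apply', ← hs, h2, hT2]
  · obtain ⟨j, rfl⟩ := Nat.exists_eq_add_of_le hle
    rw [Nat.add_comm s j, Function.iterate_add_apply, hs, ← Function.iterate_add_apply] at hi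
    exact h1 _ hi

end PoolAgent.Helper28.PRG
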