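import Pool.Agent.Helper28.PRG.Near

/-!
# PRG-DEAD: deadness is decided modulo a power of `m`, for every `m`

`F_p` from `near` for every prime `p | m` (`v = m.factorization p`, `Q = m / p^v`), `F = ∏_{p | m} p^(F_p)`.
Claim: `F | a - a'` implies `0 < nu (k+1) a ↔ 0 < nu (k+1) a'` (all `k`): change the residues modulo the prime powers one prime after the other (CRT): for a set `S` of primes dividing `m` let
`a_S` be congruent to `a'` modulo `p^(v_p (k+1) + F_p)` for `p` in `S` and to `a` for the other `p`; `a_S` and `a_(S + p)` differ only at `p`: `p^(F_p) | a_S - a_(S+p)`, `Q_p^(k+1) | a_S - a_(S+p)`: `near`.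
At the end `a_S = a' mod m^(k+1)` (`PL.nu_congr`).  Then exactly as in `Helper8/PRE/P8.lean` (`dead_mod`) with `F` in place of `p^(κ₀ + E)` (`F | m^s0` for large `s0`).
-/

set_option autoImplicit false

namespace PoolAgent.Helper28.PRG

open Finset Pool.Agent.Helper68.Moeller Pool.Agent.Helper52.Tao Pool.Agent.Helper91 Pool.Agent.Helper8.PRE

/-- changing the residues modulo the prime powers one prime after the other -/
private theorem dm_step {d m : ℕ} {r : ℤ → ℤ} (hm : m ≠ 0) (Ff : ℕ → ℕ)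
    (hF : ∀ p ∈ m.primeFactors, ∀ (k : ℕ) (a a' : ℤ), (p : ℤ) ^ Ff p ∣ a - a' →
      ((m / p ^ m.factorization p : ℕ) : ℤ) ^ (k + 1) ∣ a - a' →
      (0 < PL.nu d m r (k + 1) a ↔ 0 < PL.nu d m r (k + 1) a'))
    (k : ℕ) (T : Finset ℕ) (hT : T ⊆ m.primeFactors) (a a' : ℤ)
    (h1 : ∀ q ∈ m.primeFactors, (q : ℤ) ^ Ff q ∣ a - a')
    (h2 : ∀ q ∈ m.primeFactors, q ∉ T → (q : ℤ) ^ (m.factorization q * (k + 1)) ∣ a - a') :
    0 < PL.nu d m r (k + 1) a ↔ 0 < PL.nu d m r (k + 1) a' := by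
  induction T using Finset.induction_on generalizing a with
  | empty =>
    have hmk : (m : ℤ) ^ (k + 1) = ∏ q ∈ m.primeFactors, (q : ℤ) ^ (m.factorization q * (k + 1)) := by
      have e := Nat.prod_factorization_pow_eq_self hm
      rw [Finsupp.prod, Nat.support_factorization] at e
      conv_lhs => rw [← e]
      rw [Nat.cast_prod, ← Finset.prod_pow]
      refine Finset.prod_congr rfl fun q _ => ?_
      rw [Nat.cast_pow, ← pow_mul]
    have hdvd : (m : ℤ) ^ (k + 1) ∣ a - a' := by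
      rw [hmk]
      refine Finset.prod_dvd_of_coprime ?_ fun q hq => h2 q hq (Finset.notMem_empty q)
      intro q hq q' hq' hne
      have hq1 := Nat.prime_of_mem_primeFactors (Finset.mem_coe.1 hq)
      have hq2 := Nat.prime_of_mem_primeFactors (Finset.mem_coe.1 hq')
      exact IsCoprime.pow (Nat.isCoprime_iff_coprime.2 ((Nat.coprime_primes hq1 hq2).2 hne))
    rw [PL.nu_congr hdvd]
  | insert p T hpT ih =>
    have hp : p ∈ m.primeFactors := hT (Finset.mem_insert_self p T)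
    have hpp := Nat.prime_of_mem_primeFactors hp
    set Q : ℕ := m / p ^ m.factorization p with hQ
    have hcop : Nat.Coprime p Q := Nat.coprime_ordCompl hpp hm
    have hco : IsCoprime ((p : ℤ) ^ (m.factorization p * (k + 1))) ((Q : ℤ) ^ (k + 1)) :=
      IsCoprime.pow (Nat.isCoprime_iff_coprime.2 hcop)
    obtain ⟨u, w, huw⟩ := hco
    set b : ℤ := a' + u * (p : ℤ) ^ (m.factorization p * (k + 1)) * (a - a') with hb
    have e1 : b - a' = u * (p : ℤ) ^ (m.factorization p * (k + 1)) * (a - a') := by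
      rw [hb]; ring
    have e2 : a - b = w * (Q : ℤ) ^ (k + 1) * (a - a') := by
      rw [hb]
      linear_combination (-(a - a')) * huw
    have s1 : 0 < PL.nu d m r (k + 1) a ↔ 0 < PL.nu d m r (k + 1) b := by
      refine hF p hp k a b ?_ ?_
      · rw [e2]
        exact Dvd.dvd.mul_left (h1 p hp) _
      · rw [e2, mul_assoc]
        exact Dvd.dvd.mul_left (Dvd.intro _ rfl) _
    rw [s1]
    refine ih (fun q hq => hT (Finset.mem_insert_of_mem hq)) b (fun q hq => ?_) (fun q hq hqT => ?_)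
    · rw [e1]
      exact Dvd.dvd.mul_left (h1 q hq) _
    · rw [e1]
      by_cases hqp : q = p
      · rw [hqp, mul_assoc]
        exact Dvd.dvd.mul_left (Dvd.intro _ rfl) _
      · refine Dvd.dvd.mul_left (h2 q hq fun h => ?_) _
        rcases Finset.mem_insert.1 h with h | h
        · exact hqp h
        · exact hqT h

theorem near_all {d m : ℕ} {r : ℤ → ℤ} (hd : 2 ≤ d) (hdm : d < m) (hco : Nat.Coprime m d) (hr : Admissible d m r) :
    ∃ (F s : ℕ), 0 < F ∧ F ∣ m ^ s ∧ ∀ (k : ℕ) (a a' : ℤ), (F : ℤ) ∣ a - a' →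
      (0 < PL.nu d m r (k + 1) a ↔ 0 < PL.nu d m r (k + 1) a') := by
  classical
  have hm : m ≠ 0 := by omega
  have hex : ∀ p : ℕ, ∃ F : ℕ, p ∈ m.primeFactors → ∀ (k : ℕ) (a a' : ℤ), (p : ℤ) ^ F ∣ a - a' →
      ((m / p ^ m.factorization p : ℕ) : ℤ) ^ (k + 1) ∣ a - a' →
      (0 < PL.nu d m r (k + 1) a ↔ 0 < PL.nu d m r (k + 1) a') := by
    intro p
    by_cases hp : p ∈ m.primeFactors
    · have hpp := Nat.prime_of_mem_primeFactors hp
      have hpm := Nat.dvd_of_mem_primeFactors hp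
      obtain ⟨F, hF⟩ := near (v := m.factorization p) (Q := m / p ^ m.factorization p) hd hco hr hpp
        (hpp.factorization_pos_of_dvd hm hpm) (Nat.ordProj_mul_ordCompl_eq_self m p).symm
        (Nat.coprime_ordCompl hpp hm)
      exact ⟨F, fun _ => hF⟩
    · exact ⟨0, fun h => absurd h hp⟩
  choose Ff hFf using hex
  refine ⟨∏ p ∈ m.primeFactors, p ^ Ff p, ∑ p ∈ m.primeFactors, Ff p, ?_, ?_, ?_⟩
  · exact Finset.prod_pos fun p hp => pow_pos (Nat.prime_of_mem_primeFactors hp).pos _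
  · rw [← Finset.prod_pow_eq_pow_sum]
    exact Finset.prod_dvd_prod_of_dvd _ _ fun p hp => pow_dvd_pow_of_dvd (Nat.dvd_of_mem_primeFactors hp) _
  · intro k a a' h
    refine dm_step hm Ff (fun p hp => hFf p hp) k m.primeFactors (Finset.Subset.refl _) a a'
      (fun q hq => ?_) (fun q hq hq' => absurd hq hq')
    refine dvd_trans ?_ h
    have h1 : q ^ Ff q ∣ ∏ p ∈ m.primeFactors, p ^ Ff p := Finset.dvd_prod_of_mem _ hq
    exact_mod_cast h1

theorem dead_modG {d m : ℕ} {r : ℤ → ℤ} (hd : 2 ≤ d) (hdm : d < m) (hco : Nat.Coprime m d) (hr : Admissible d m r) :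
    ∃ s0 : ℕ, (∀ a a' : ℤ, (m : ℤ) ^ s0 ∣ a - a' → (PL.Dead d m r a ↔ PL.Dead d m r a')) ∧
      ∀ a : ℤ, 0 < PL.nu d m r s0 a → ¬ PL.Dead d m r a := by
  classical
  obtain ⟨F, s, hF0, hFs, hper⟩ := near_all hd hdm hco hr
  set A : ℕ → Finset ℕ := fun k =>
    (range F).filter (fun x : ℕ => 0 < PL.nu d m r (k + 1) (x : ℤ)) with hA
  have hAanti : ∀ k k' : ℕ, k ≤ k' → A k' ⊆ A k := by
    intro k k' hkk x hx
    rw [hA] at hx ⊢
    rw [mem_filter] at hx ⊢
    exact ⟨hx.1, lt_of_lt_of_le hx.2 (PL.nu_anti (by omega) _)⟩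
  obtain ⟨k₁, hk₁⟩ : ∃ k₁ : ℕ, ∀ k, (A k₁).card ≤ (A k).card :=
    ⟨Function.argmin (fun k => (A k).card), fun k => Function.argmin_le (fun k => (A k).card) k⟩
  have hconst : ∀ k, k₁ ≤ k → A k = A k₁ := fun k hk =>
    Finset.eq_of_subset_of_card_le (hAanti _ _ hk) (hk₁ k)
  have hpp : (0 : ℤ) < (F : ℤ) := by exact_mod_cast hF0
  have halive : ∀ a : ℤ, 0 < PL.nu d m r (k₁ + 1) a → ¬ PL.Dead d m r a := by
    intro a ha hdead
    rw [PL.dead_iff hd hdm hco hr] at hdead
    obtain ⟨k, hk⟩ := hdead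
    set x : ℕ := (a % (F : ℤ)).toNat with hx
    have hx1 : ((x : ℕ) : ℤ) = a % (F : ℤ) :=
      Int.toNat_of_nonneg (Int.emod_nonneg _ hpp.ne')
    have hx2 : (F : ℤ) ∣ a - (x : ℤ) := by
      rw [hx1]
      exact Int.dvd_self_sub_emod
    have hx3 : x < F := by
      have h1 := Int.emod_lt_of_pos a hpp
      rw [← hx1] at h1
      exact_mod_cast h1
    have hxA : x ∈ A k₁ := mem_filter.2 ⟨mem_range.2 hx3, (hper k₁ a x hx2).1 ha⟩
    have hxA2 : x ∈ A (max k k₁) := by
      rw [hconst _ (le_max_right _ _)]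
      exact hxA
    have h1 : 0 < PL.nu d m r (max k k₁ + 1) a := (hper _ a x hx2).2 (mem_filter.1 hxA2).2
    have h2 : PL.nu d m r (max k k₁ + 1) a ≤ PL.nu d m r k a := PL.nu_anti (by omega) a
    linarith
  refine ⟨k₁ + 1 + s, ?_, ?_⟩
  · intro a a' h
    have h1 : (F : ℤ) ∣ a - a' := by
      refine dvd_trans ?_ h
      have h2 : F ∣ m ^ (k₁ + 1 + s) := hFs.trans (pow_dvd_pow _ (by omega))
      exact_mod_cast h2
    have key : ∀ b : ℤ, ¬ PL.Dead d m r b ↔ 0 < PL.nu d m r (k₁ + 1) b := by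
      intro b
      constructor
      · intro hb
        rw [PL.dead_iff hd hdm hco hr] at hb
        push Not at hb
        exact lt_of_le_of_ne (PL.nu_nonneg _ _) (Ne.symm (hb (k₁ + 1)))
      · exact halive b
    rw [← not_iff_not, key, key]
    exact hper k₁ a a' h1
  · intro a ha
    exact halive a (lt_of_lt_of_le ha (PL.nu_anti (by omega) a))

end PoolAgent.Helper28.PRG
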