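import Pool.Agent.Helper8.PRE.P8a

/-!
# PRG-FILL: the powers of `d` fill the classes `= 1` modulo `p^κ` while staying `= 1` modulo `Q^K`

`|(Z/Q^K)^*| = Q^(K-1) φ(Q) = p^c n'` with `c = v_p(φ(Q))` independent of `K` (`p` does not divide `Q`) and `n'` prime to `p` (for `K >= 1`).  Apply `powers_fill` to the base `D = d^(p^c (p-1))`
(`D >= 2`).  `D^(p^(K-1)) = 1` modulo `p^K`.  Given `y` take `i0` with `D^(i0) = y mod p^K` and `i = i0 + p^(K-1) t`, `i = 0 mod n'`.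
Then `D^i = y mod p^K` and `D^i = d^(p^c (p-1) i) = 1 mod Q^K`.
-/

set_option autoImplicit false

namespace PoolAgent.Helper28.PRG

open Pool.Agent.Helper8.PRE

private theorem exists_shift_28 {A n i0 : ℕ} (hn : 0 < n) (hc : Nat.Coprime A n) :
    ∃ t : ℕ, n ∣ i0 + A * t := by
  obtain ⟨a, b, hab⟩ := Nat.isCoprime_iff_coprime.2 hc
  have hn0 : (n : ℤ) ≠ 0 := by exact_mod_cast hn.ne'
  refine ⟨((-((i0 : ℤ) * a)) % n).toNat, ?_⟩
  rw [← Int.natCast_dvd_natCast]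
  push_cast
  rw [Int.toNat_of_nonneg (Int.emod_nonneg _ hn0)]
  have h3 := Int.mul_ediv_add_emod (-((i0 : ℤ) * a)) n
  refine ⟨(i0 : ℤ) * b - (A : ℤ) * ((-((i0 : ℤ) * a)) / n), ?_⟩
  have h4 : (-((i0 : ℤ) * a)) % n = -((i0 : ℤ) * a) - n * ((-((i0 : ℤ) * a)) / n) := by linarith
  rw [h4]
  have h5 : (i0 : ℤ) * (a * A + b * n) = i0 := by rw [hab, mul_one]
  linear_combination (-1 : ℤ) * h5

private theorem totient_pow_succ_28 {Q : ℕ} (hQ0 : 0 < Q) (k : ℕ) :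
    Nat.totient (Q ^ (k + 1)) = Q ^ k * Nat.totient Q := by
  induction k with
  | zero => simp
  | succ k ih =>
    have h := Nat.totient_gcd_mul_totient_mul Q (Q ^ (k + 1))
    rw [Nat.gcd_eq_left (dvd_pow_self Q (Nat.succ_ne_zero k)), mul_assoc (Nat.totient Q)] at h
    have h2 := Nat.eq_of_mul_eq_mul_left (Nat.totient_pos.2 hQ0) h
    rw [pow_succ' Q (k + 1), h2, ih, pow_succ']
    ring

theorem powers_fillG {d p Q : ℕ} (hp : p.Prime) (hd : 2 ≤ d) (hpd : ¬ p ∣ d) (hQ : Nat.Coprime p Q) (hQ0 : 0 < Q)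
    (hQd : Nat.Coprime Q d) :
    ∃ κ : ℕ, ∀ (K : ℕ) (y : ℤ), (p : ℤ) ^ κ ∣ y - 1 → ∃ i : ℕ, (p : ℤ) ^ K ∣ (d : ℤ) ^ i - y ∧ (Q : ℤ) ^ K ∣ (d : ℤ) ^ i - 1 := by
  obtain ⟨c, n0, hn0, hcn⟩ := Nat.exists_eq_pow_mul_and_not_dvd (n := Nat.totient Q)
    (Nat.totient_pos.2 hQ0).ne' p hp.ne_one
  have hp2 := hp.two_le
  obtain ⟨E, hE⟩ : ∃ E : ℕ, E = p ^ c * (p - 1) := ⟨_, rfl⟩
  have hE0 : E ≠ 0 := by
    rw [hE]
    exact Nat.mul_ne_zero (pow_pos hp.pos c).ne' (by omega)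
  have hD2 : 2 ≤ d ^ E := hd.trans (Nat.le_self_pow hE0 d)
  have hpD : ¬ p ∣ d ^ E := fun h => hpd (hp.dvd_of_dvd_pow h)
  obtain ⟨κ, -, hκ⟩ := powers_fill hp hD2 hpD
  refine ⟨κ, fun K y hy => ?_⟩
  rcases Nat.eq_zero_or_pos K with rfl | hK
  · exact ⟨0, by simp, by simp⟩
  obtain ⟨k, rfl⟩ : ∃ k, K = k + 1 := ⟨K - 1, by omega⟩
  obtain ⟨i0, hi0⟩ := hκ (k + 1) y hy
  have hn0p : 0 < n0 := by
    rcases Nat.eq_zero_or_pos n0 with h | h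
    · exact absurd (h ▸ dvd_zero p) hn0
    · exact h
  have hcop : Nat.Coprime (p ^ k) (Q ^ k * n0) := by
    apply Nat.Coprime.pow_left
    exact Nat.Coprime.mul_right (hQ.pow_right k) ((Nat.Prime.coprime_iff_not_dvd hp).2 hn0)
  obtain ⟨t, ht⟩ := exists_shift_28 (A := p ^ k) (n := Q ^ k * n0) (i0 := i0)
    (Nat.mul_pos (pow_pos hQ0 k) hn0p) hcop
  refine ⟨E * (i0 + p ^ k * t), ?_, ?_⟩
  · -- modulo `p ^ (k + 1)`
    have h1 : d ^ Nat.totient (p ^ (k + 1)) ≡ 1 [MOD p ^ (k + 1)] :=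
      Nat.ModEq.pow_totient (((Nat.Prime.coprime_iff_not_dvd hp).2 hpd).symm.pow_right (k + 1))
    rw [Nat.totient_prime_pow_succ hp] at h1
    have h2 : (d ^ (p ^ k * (p - 1))) ^ (p ^ c * t) ≡ 1 [MOD p ^ (k + 1)] := by
      have := h1.pow (p ^ c * t)
      rwa [one_pow] at this
    have h3 : d ^ (E * (i0 + p ^ k * t)) = (d ^ E) ^ i0 * (d ^ (p ^ k * (p - 1))) ^ (p ^ c * t) := by
      rw [← pow_mul, ← pow_mul, ← pow_add, hE]
      congr 1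
      ring
    have h4 : d ^ (E * (i0 + p ^ k * t)) ≡ (d ^ E) ^ i0 [MOD p ^ (k + 1)] := by
      rw [h3]
      have := h2.mul_left ((d ^ E) ^ i0)
      rwa [mul_one] at this
    have h5 : ((p : ℤ) ^ (k + 1)) ∣ ((d ^ E : ℕ) : ℤ) ^ i0 - (d : ℤ) ^ (E * (i0 + p ^ k * t)) := by
      have := (Nat.modEq_iff_dvd.1 h4)
      push_cast at this ⊢
      exact this
    have h6 := dvd_sub hi0 h5
    have h7 : (((d ^ E : ℕ) : ℤ) ^ i0 - y) - (((d ^ E : ℕ) : ℤ) ^ i0 - (d : ℤ) ^ (E * (i0 + p ^ k * t))) =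
        (d : ℤ) ^ (E * (i0 + p ^ k * t)) - y := by ring
    rwa [h7] at h6
  · -- modulo `Q ^ (k + 1)`
    obtain ⟨j, hj⟩ := ht
    have h1 : d ^ Nat.totient (Q ^ (k + 1)) ≡ 1 [MOD Q ^ (k + 1)] :=
      Nat.ModEq.pow_totient (hQd.symm.pow_right (k + 1))
    rw [totient_pow_succ_28 hQ0, hcn] at h1
    have h2 : (d ^ (Q ^ k * (p ^ c * n0))) ^ ((p - 1) * j) ≡ 1 [MOD Q ^ (k + 1)] := by
      have := h1.pow ((p - 1) * j)
      rwa [one_pow] at this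
    have h3 : d ^ (E * (i0 + p ^ k * t)) = (d ^ (Q ^ k * (p ^ c * n0))) ^ ((p - 1) * j) := by
      rw [hj, ← pow_mul, hE]
      congr 1
      ring
    rw [← h3] at h2
    have := Nat.modEq_iff_dvd.1 h2.symm
    push_cast at this
    exact this

end PoolAgent.Helper28.PRG
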