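import Pool.Agent.Helper28.PRG.P6
import Pool.Agent.Helper28.PRG.P7b
import Pool.Agent.Helper28.PRG.DeadMod
import Pool.Agent.Helper52.Tao.U3
import Pool.Agent.Helper52.Tao.FD
import Pool.Agent.Helper52.Tao.MX1
import Pool.Agent.Helper52.Tao.MX2

/-!
# The predecessor exponent is one
-/

set_option autoImplicit false

namespace PoolAgent.Helper28.PRG

open Finset Pool.Agent.Helper68.Moeller Pool.Agent.Helper52.Tao Pool.Agent.Helper91

theorem exponent_one {d m : ℕ} {r : ℤ → ℤ} (hd : 2 ≤ d) (hdm : d < m) (hco : Nat.Coprime m d)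
    (hw : (m : ℝ) ≤ (d : ℝ) ^ ((d : ℝ) / ((d : ℝ) - 1)))
    (hr : Admissible d m r) {g : ℝ} (hg : g < 1) :
    ∃ c : ℝ, 0 < c ∧ ∀ (a : ℤ) (x : ℝ), 1 ≤ a → ¬ PL.Dead d m r a → (a : ℝ) ≤ x →
      c * (x / a) ^ g ≤ ({n : ℤ | (∃ t : ℕ, (T d m r)^[t] n = a) ∧ 0 < n ∧ (n : ℝ) ≤ x}.ncard : ℝ) := by
  obtain ⟨s0, hc1, hc2⟩ := dead_modG (r := r) hd hdm hco hr
  have hB : Base d m m 1 s0 r := ⟨hd, hdm, hco, hr, by omega, le_refl _, (pow_one m).symm, hw, hc1, hc2⟩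
  have hmix : Mixing d m r := mixing hd hdm hco (mixing_step hd hdm hco hw hr
    (fourier_decay hd hdm hco hw hr (one_block hd hdm hco hw)))
  -- the exponents
  obtain ⟨g', hg'1, hg'2, hg'3⟩ : ∃ g' : ℝ, g < g' ∧ g' < 1 ∧ 0 < g' := by
    refine ⟨(max g 0 + 1) / 2, ?_, ?_, ?_⟩
    · have h1 := le_max_left g 0
      have h2 : max g 0 < 1 := max_lt hg (by norm_num)
      linarith
    · have h2 : max g 0 < 1 := max_lt hg (by norm_num)
      linarith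
    · have h1 := le_max_right g 0
      linarith
  obtain ⟨P, hP, rfl, rfl, -, -, rfl, rfl, n, hn, ε, hε, hZ⟩ :=
    exists_growth hB hmix hg'3.le hg'2
  obtain ⟨A1, c3, κ, hA1, hc3, hκ, h⟩ := tree_count hP hg'3 hn hε hZ
  exact pred_count hB hg'1 hA1 hc3 hκ h

end PoolAgent.Helper28.PRG
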