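import Pool.Agent.Helper28.ED.Defs
import Pool.Agent.Helper91.PL.Defs

/-!
# Predecessor exponent one: the systems attached to the Möller maps, arbitrary base

Copy of `Helper8/PRE/MSys.lean` (helper8) with a base `p` which need not be prime; the files `P1a` ... `Cons` of this folder are
copies of the files of the same names of `Helper8/PRE` (helper8, helper9, helper11, helper52, helper77 and others) over this base.

Project PRE (helper8, helper28), paper proof `/team-store/h8_PRE_proof.md`, `/team-store/h28_PRE5_alt.md`.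
Letters are the words with `b` non-zero digits whose last digit (the digit of the point furthest back)
is not `0`; chains of `n` letters are concatenations. `Hit`, `pt`, `Dead`, `nu`: see `Helper91/PL/Defs`; `W`, `sg`, `Off`, `wd`: see
`Helper52/Tao/Defs`. The system `MS P hP g` (see `Helper28/EC/Defs`) has the weights `exp (- g x w)`, where
`x w = |w| log d - sg w log m` is the scale; `p ^ N = m ^ b`, `p ^ rho = m ^ s0`, alive = not dead.
-/

set_option autoImplicit false

namespace PoolAgent.Helper28.PRG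

open Finset Pool.Agent.Helper68.Moeller Pool.Agent.Helper52.Tao Pool.Agent.Helper91

/-- Parameters. -/
structure MP where
  d : ℕ
  m : ℕ
  p : ℕ
  v : ℕ
  s0 : ℕ
  b : ℕ
  Tm : ℕ
  r : ℤ → ℤ
  x1 : ℝ

/-- Assumptions on the map. -/
structure Base (d m p v s0 : ℕ) (r : ℤ → ℤ) : Prop where
  hd : 2 ≤ d
  hdm : d < m
  hco : Nat.Coprime m d
  hr : Admissible d m r
  hp : 2 ≤ p
  hv : 1 ≤ v
  hm : m = p ^ v
  hw : (m : ℝ) ≤ (d : ℝ) ^ ((d : ℝ) / ((d : ℝ) - 1))
  /-- being dead is decided modulo `m ^ s0` -/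
  c1 : ∀ a a' : ℤ, (m : ℤ) ^ s0 ∣ a - a' → (PL.Dead d m r a ↔ PL.Dead d m r a')
  c2 : ∀ a : ℤ, 0 < PL.nu d m r s0 a → ¬ PL.Dead d m r a

/-- The scale of a word. -/
noncomputable def MP.x (P : MP) (w : List ℕ) : ℝ :=
  w.length * Real.log P.d - sg w * Real.log P.m

/-- The letters. -/
noncomputable def MP.Lt (P : MP) : Finset (List ℕ) :=
  ((range (P.Tm + 1)).biUnion (fun t => W P.d t)).filter
    (fun w => sg w = P.b ∧ w.getLastD 0 ≠ 0 ∧ P.x1 * P.b ≤ P.x w)

/-- The chains of `n` letters. -/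
noncomputable def MP.Ch (P : MP) : ℕ → Finset (List ℕ)
  | 0 => {[]}
  | n + 1 => (P.Ch n ×ˢ P.Lt).image (fun y => y.1 ++ y.2)

/-- Assumptions on the parameters of the letters. -/
structure MP.Ok (P : MP) : Prop where
  base : Base P.d P.m P.p P.v P.s0 P.r
  hb : 1 ≤ P.b
  hx : 0 < P.x1
  hx3 : P.x1 + Real.log P.m ≤ 3 * Real.log P.d
  ho : ∃ o : ℕ, 1 ≤ o ∧ (P.m : ℤ) ^ (P.s0 + 1) ∣ (P.d : ℤ) ^ o - 1 ∧ (2 * o + 3) * P.b ≤ P.Tm

theorem pow_eq {P : MP} (hP : P.Ok) (k : ℕ) : (P.p : ℤ) ^ (P.v * k) = (P.m : ℤ) ^ k := by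
  rw [pow_mul, hP.base.hm]
  push_cast
  rfl

theorem p_coprime {P : MP} (hP : P.Ok) : IsCoprime (P.d : ℤ) (P.p : ℤ) := by
  have h := hP.base.hco
  rw [hP.base.hm] at h
  have hv := hP.base.hv
  have h2 : Nat.Coprime P.p P.d := Nat.Coprime.coprime_dvd_left (dvd_pow_self _ (by omega)) h
  exact Nat.isCoprime_iff_coprime.2 h2.symm

/-- The system with exponent `g`. -/
noncomputable def MS (P : MP) (hP : P.Ok) (g : ℝ) : PoolAgent.Helper28.ED.Sys where
  p := P.p
  N := P.v * P.b
  rho := P.v * P.s0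
  d := (P.d : ℤ)
  ι := {w : List ℕ // w ∈ P.Lt}
  tau := fun w => w.1.length
  off := fun w => Off P.d P.m P.r w.1
  alive := fun a => ¬ PL.Dead P.d P.m P.r a
  om := fun w => Real.exp (-(g * P.x w.1))
  fin := inferInstance
  dec := inferInstance
  hp := hP.base.hp
  hN := Nat.one_le_iff_ne_zero.2 (Nat.mul_ne_zero (Nat.one_le_iff_ne_zero.1 hP.base.hv)
    (Nat.one_le_iff_ne_zero.1 hP.hb))
  hd := p_coprime hP
  alive_per := fun a z => by
    have h := hP.base.c1 (a + (P.p : ℤ) ^ (P.v * P.s0) * z) a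
      (by rw [pow_eq hP]; exact ⟨z, by ring⟩)
    exact not_congr h
  om_pos := fun w => Real.exp_pos _

end PoolAgent.Helper28.PRG
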