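import Pool.Agent.Helper28.PRG.Fill
import Pool.Agent.Helper8.PRE.P8b

/-!
# PRG-NEAR: `nu (k+1) a > 0` depends only on finitely many `p`-adic digits of `a`, for each prime `p | m` separately

`m = p^v Q`, `p` prime, prime to `Q`.  Same proof as `near_nonzero`, `near_zero` of `Helper8/PRE/P8b.lean`, with `powers_fillG` in place of `powers_fill`:
* nonzero: if `¬ p^(e+1) | a`, `p^(κ+e) | a - a'`, `Q^k | a - a'` then `y a = a' mod p^(v k)` for some `y = 1 mod p^κ`; `d^i = y mod p^(v k)`, `d^i = 1 mod Q^k`, so `d^i a = a' mod m^k`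
  and `nu_mul`, `PL.nu_congr` (modulo `m^k`).
* zero: `E` so large that `E >= v + κ + e + 1`, `e = max_j v_p(r j)`.  If `p^E | a`, `p^E | a'`, `Q^(k+1) | a - a'`: a word hitting `a` with `k+1` nonzero digits starts with `replicate i 0 ++ [j]`, child
  `c = (d^(i+1) a + r j)/m`; the same step is possible at `a'` (modulo `p^v`: `p^v | a, a'`; modulo `Q`: `Q | a - a'`), `c' - c = d^(i+1) (a'-a)/m` is divisible by `p^(E-v)` and by `Q^k`, and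
  `¬ p^(e+1) | c` (`v_p(c) = v_p(r j) - v`), so the nonzero case applies to `c, c'` at level `k`.
-/

set_option autoImplicit false

namespace PoolAgent.Helper28.PRG

open Finset Pool.Agent.Helper68.Moeller Pool.Agent.Helper52.Tao Pool.Agent.Helper91 Pool.Agent.Helper8.PRE

private theorem prg_hit_cons {d m : ℕ} {r : ℤ → ℤ} (hm : 0 < m) (k : ℕ) {b c : ℤ} {j : ℕ}
    (hj : j ≠ 0) (hc : (d : ℤ) * b + r j = (m : ℤ) * c) (w : List ℕ) :
    PL.Hit d m r (k + 1) b (j :: w) ↔ PL.Hit d m r k c w := by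
  unfold PL.Hit
  rw [Off, List.length_cons, nz_of_ne hj, rr_of_ne hj]
  have e : (d : ℤ) ^ (w.length + 1) * b + ((m : ℤ) ^ 1 * Off d m r w +
      (d : ℤ) ^ w.length * r j) =
      (m : ℤ) * ((d : ℤ) ^ w.length * c + Off d m r w) := by
    have e1 : r j = (m : ℤ) * c - (d : ℤ) * b := by linarith
    rw [e1]
    ring
  rw [e, pow_succ' (m : ℤ) k]
  have hm' : (m : ℤ) ≠ 0 := by exact_mod_cast hm.ne'
  exact mul_dvd_mul_iff_left hm'

private theorem prg_nonzero {d m p v Q : ℕ} {r : ℤ → ℤ} (hd : 2 ≤ d) (hco : Nat.Coprime m d)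
    (hp : p.Prime) (hv : 1 ≤ v) (hm : m = p ^ v * Q) (hpQ : Nat.Coprime p Q) {κ : ℕ}
    (hκ : ∀ (K : ℕ) (y : ℤ), (p : ℤ) ^ κ ∣ y - 1 →
      ∃ i : ℕ, (p : ℤ) ^ K ∣ (d : ℤ) ^ i - y ∧ (Q : ℤ) ^ K ∣ (d : ℤ) ^ i - 1)
    (k e : ℕ) {a a' : ℤ} (h1 : ¬ (p : ℤ) ^ (e + 1) ∣ a) (h2 : (p : ℤ) ^ (κ + e) ∣ a - a')
    (h3 : (Q : ℤ) ^ k ∣ a - a') :
    0 < PL.nu d m r k a ↔ 0 < PL.nu d m r k a' := by
  obtain ⟨e', he', u, hu, hpu⟩ := p8b_factor p e a h1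
  obtain ⟨z, hz⟩ := h2
  have hpP : Prime (p : ℤ) := Nat.prime_iff_prime_int.1 hp
  have hcop : IsCoprime (u : ℤ) ((p : ℤ) ^ (v * k)) := by
    have h4 : IsCoprime (p : ℤ) u := (hpP.irreducible.coprime_iff_not_dvd (n := u)).2 hpu
    exact (h4.pow_left).symm
  obtain ⟨u', w, huw⟩ := hcop
  obtain ⟨i, hi, hi'⟩ := hκ (v * k) (1 - (p : ℤ) ^ (κ + e - e') * z * u') (by
    have e1 : (1 - (p : ℤ) ^ (κ + e - e') * z * u') - 1 =
      (p : ℤ) ^ (κ + e - e') * (-(z * u')) := by ring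
    rw [e1]
    exact Dvd.dvd.mul_right (pow_dvd_pow _ (by omega)) _)
  have hpQ' : IsCoprime ((p : ℤ) ^ (v * k)) ((Q : ℤ) ^ k) :=
    (Nat.isCoprime_iff_coprime.2 hpQ).pow
  have hcong : (m : ℤ) ^ k ∣ (d : ℤ) ^ i * a - a' := by
    have hmk : (m : ℤ) ^ k = (p : ℤ) ^ (v * k) * (Q : ℤ) ^ k := by
      rw [hm]
      push_cast
      rw [mul_pow, ← pow_mul]
    rw [hmk]
    refine hpQ'.mul_dvd ?_ ?_
    · have e2 : (p : ℤ) ^ (κ + e - e') * (p : ℤ) ^ e' = (p : ℤ) ^ (κ + e) := by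
        rw [← pow_add]; congr 1; omega
      have e3 : (d : ℤ) ^ i * a - a' = ((d : ℤ) ^ i - (1 - (p : ℤ) ^ (κ + e - e') * z * u')) * a +
          (p : ℤ) ^ (v * k) * ((p : ℤ) ^ (κ + e) * z * w) := by
        have e4 : a' = a - (p : ℤ) ^ (κ + e) * z := by linarith
        rw [e4, hu]
        have e5 : ((p : ℤ) ^ (κ + e)) * z * (u' * u + w * (p : ℤ) ^ (v * k)) =
          ((p : ℤ) ^ (κ + e)) * z := by rw [huw, mul_one]
        rw [← e2] at e5 ⊢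
        linear_combination -e5
      rw [e3]
      exact dvd_add (Dvd.dvd.mul_right hi _) (Dvd.dvd.mul_right dvd_rfl _)
    · have e6 : (d : ℤ) ^ i * a - a' = ((d : ℤ) ^ i - 1) * a + (a - a') := by ring
      rw [e6]
      exact dvd_add (Dvd.dvd.mul_right
        ((pow_dvd_pow _ (Nat.le_mul_of_pos_left _ hv)).trans hi') _) h3
  rw [← PL.nu_congr hcong, nu_mul hd hco]

private theorem prg_zero {d m p v Q : ℕ} {r : ℤ → ℤ} (hd : 2 ≤ d) (hco : Nat.Coprime m d)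
    (hp : p.Prime) (hv : 1 ≤ v) (hm : m = p ^ v * Q) (hpQ : Nat.Coprime p Q) {κ : ℕ}
    (hκ : ∀ (K : ℕ) (y : ℤ), (p : ℤ) ^ κ ∣ y - 1 →
      ∃ i : ℕ, (p : ℤ) ^ K ∣ (d : ℤ) ^ i - y ∧ (Q : ℤ) ^ K ∣ (d : ℤ) ^ i - 1)
    (e : ℕ) (he : ∀ j : ℕ, 0 < j → j < d → ¬ (p : ℤ) ^ (e + 1) ∣ r j) (k : ℕ) (a a' : ℤ)
    (ha : (p : ℤ) ^ (v + (κ + e)) ∣ a) (ha' : (p : ℤ) ^ (v + (κ + e)) ∣ a')
    (hQ : (Q : ℤ) ^ (k + 1) ∣ a - a')
    (h : 0 < PL.nu d m r (k + 1) a) : 0 < PL.nu d m r (k + 1) a' := by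
  have hm0 := p8b_m_pos hd hco
  have hQ0 : (Q : ℤ) ≠ 0 := by
    intro h0
    have h1 : Q = 0 := by exact_mod_cast h0
    rw [hm, h1, mul_zero] at hm0
    exact lt_irrefl _ hm0
  have hp0 : (p : ℤ) ≠ 0 := by exact_mod_cast hp.ne_zero
  have hcPQ : IsCoprime (p : ℤ) (Q : ℤ) := Nat.isCoprime_iff_coprime.2 hpQ
  have hmZ : (m : ℤ) = (p : ℤ) ^ v * (Q : ℤ) := by
    rw [hm]
    push_cast
    rfl
  have hpa : (p : ℤ) ^ (v + (κ + e)) ∣ a - a' := dvd_sub ha ha'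
  have hmaa : (m : ℤ) ∣ a - a' := by
    rw [hmZ]
    refine (hcPQ.pow_left).mul_dvd ((pow_dvd_pow _ (by omega)).trans hpa) ?_
    exact (dvd_pow_self _ (by omega)).trans hQ
  obtain ⟨δ, hδ⟩ := hmaa
  have hδp : (p : ℤ) ^ (κ + e) ∣ δ := by
    have h1 : (p : ℤ) ^ v * (p : ℤ) ^ (κ + e) ∣ (p : ℤ) ^ v * ((Q : ℤ) * δ) := by
      rw [← pow_add, ← mul_assoc, ← hmZ, ← hδ]
      exact hpa
    have h2 := (mul_dvd_mul_iff_left (pow_ne_zero v hp0)).1 h1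
    exact (hcPQ.pow_left).dvd_of_dvd_mul_left h2
  have hδQ : (Q : ℤ) ^ k ∣ δ := by
    have h1 : (Q : ℤ) * (Q : ℤ) ^ k ∣ (Q : ℤ) * ((p : ℤ) ^ v * δ) := by
      rw [← pow_succ']
      have e1 : (Q : ℤ) * ((p : ℤ) ^ v * δ) = a - a' := by
        rw [hδ, hmZ]
        ring
      rw [e1]
      exact hQ
    have h2 := (mul_dvd_mul_iff_left hQ0).1 h1
    exact (hcPQ.symm.pow).dvd_of_dvd_mul_left h2
  rw [PL.nu_pos_iff hd hco] at h
  obtain ⟨t, w, hw, hsg, hhit⟩ := h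
  obtain ⟨i, j, w', hj, rfl⟩ := p8b_split w (by omega)
  have hw2 := (mem_W.1 hw).2
  have hjd : j < d := hw2 j (by simp)
  have hj0 : 0 < j := Nat.pos_of_ne_zero hj
  rw [p8b_hit_zeros] at hhit
  have hmr : (m : ℤ) ∣ (d : ℤ) * ((d : ℤ) ^ i * a) + r j := by
    unfold PL.Hit at hhit
    rw [Off, List.length_cons, nz_of_ne hj, rr_of_ne hj] at hhit
    have h1 : (m : ℤ) ∣ (d : ℤ) ^ (w'.length + 1) * ((d : ℤ) ^ i * a) +
        ((m : ℤ) ^ 1 * Off d m r w' + (d : ℤ) ^ w'.length * r j) :=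
      (dvd_pow_self (m : ℤ) (by omega)).trans hhit
    have h2 : (m : ℤ) ∣ (d : ℤ) ^ w'.length * ((d : ℤ) * ((d : ℤ) ^ i * a) + r j) := by
      have h4 : (d : ℤ) ^ w'.length * ((d : ℤ) * ((d : ℤ) ^ i * a) + r j) =
        ((d : ℤ) ^ (w'.length + 1) * ((d : ℤ) ^ i * a) +
        ((m : ℤ) ^ 1 * Off d m r w' + (d : ℤ) ^ w'.length * r j)) -
        (m : ℤ) * Off d m r w' := by ring
      rw [h4]
      exact dvd_sub h1 (Dvd.dvd.mul_right dvd_rfl _)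
    have hc : IsCoprime (m : ℤ) ((d : ℤ) ^ w'.length) :=
      (Nat.isCoprime_iff_coprime.2 hco).pow_right
    exact hc.dvd_of_dvd_mul_left h2
  obtain ⟨c, hc⟩ := hmr
  rw [prg_hit_cons hm0 k hj hc] at hhit
  have hpos : 0 < PL.nu d m r k c := by
    rw [PL.nu_pos_iff hd hco]
    refine ⟨w'.length, w', ?_, ?_, hhit⟩
    · rw [mem_W]
      exact ⟨rfl, fun b hb => hw2 b (by simp [hb])⟩
    · rw [sg_append, p8b_sg_replicate, sg_cons, nz_of_ne hj] at hsg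
      omega
  have hc' : (d : ℤ) * ((d : ℤ) ^ i * a') + r j =
      (m : ℤ) * (c - (d : ℤ) ^ (i + 1) * δ) := by
    have e1 : a' = a - (m : ℤ) * δ := by linarith
    rw [e1]
    linear_combination hc
  have hpos' : 0 < PL.nu d m r k (c - (d : ℤ) ^ (i + 1) * δ) := by
    refine (prg_nonzero hd hco hp hv hm hpQ hκ k e ?_ ?_ ?_).1 hpos
    · intro h
      apply he j hj0 hjd
      have e1 : r j = (m : ℤ) * c - (d : ℤ) * ((d : ℤ) ^ i * a) := by linarith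
      rw [e1]
      refine dvd_sub (Dvd.dvd.mul_left h _) (Dvd.dvd.mul_left (Dvd.dvd.mul_left ?_ _) _)
      exact (pow_dvd_pow _ (by omega)).trans ha
    · have e1 : c - (c - (d : ℤ) ^ (i + 1) * δ) = (d : ℤ) ^ (i + 1) * δ := by ring
      rw [e1]
      exact Dvd.dvd.mul_left hδp _
    · have e1 : c - (c - (d : ℤ) ^ (i + 1) * δ) = (d : ℤ) ^ (i + 1) * δ := by ring
      rw [e1]
      exact Dvd.dvd.mul_left hδQ _
  rw [PL.nu_pos_iff hd hco] at hpos'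
  obtain ⟨t', w'', hw'', hsg'', hhit''⟩ := hpos'
  refine (nu_mul hd hco (k + 1) i a').1 ?_
  rw [PL.nu_pos_iff hd hco]
  refine ⟨t' + 1, j :: w'', ?_, ?_, ?_⟩
  · rw [mem_W] at hw'' ⊢
    refine ⟨by rw [List.length_cons, hw''.1], ?_⟩
    intro b hb
    rcases List.mem_cons.1 hb with rfl | hb
    · exact hjd
    · exact hw''.2 b hb
  · rw [sg_cons, nz_of_ne hj, hsg'']
    omega
  · exact (prg_hit_cons hm0 k hj hc' w'').2 hhit''

theorem near {d m p v Q : ℕ} {r : ℤ → ℤ} (hd : 2 ≤ d) (hco : Nat.Coprime m d) (hr : Admissible d m r) (hp : p.Prime)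
    (hv : 1 ≤ v) (hm : m = p ^ v * Q) (hpQ : Nat.Coprime p Q) :
    ∃ F : ℕ, ∀ (k : ℕ) (a a' : ℤ), (p : ℤ) ^ F ∣ a - a' → (Q : ℤ) ^ (k + 1) ∣ a - a' →
      (0 < PL.nu d m r (k + 1) a ↔ 0 < PL.nu d m r (k + 1) a') := by
  have hm0 := p8b_m_pos hd hco
  have hQ0 : 0 < Q := by
    rcases Nat.eq_zero_or_pos Q with h | h
    · rw [hm, h, mul_zero] at hm0
      exact absurd hm0 (lt_irrefl _)
    · exact h
  have hQd : Nat.Coprime Q d := Nat.Coprime.coprime_dvd_left ⟨p ^ v, by rw [hm]; ring⟩ hco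
  have hpd : ¬ p ∣ d := by
    intro h
    have h1 : p ∣ m := by
      rw [hm]
      exact Dvd.dvd.mul_right (dvd_pow_self p (by omega)) _
    have h2 : p ∣ Nat.gcd m d := Nat.dvd_gcd h1 h
    rw [Nat.Coprime.gcd_eq_one hco] at h2
    exact hp.one_lt.ne' (Nat.dvd_one.1 h2)
  obtain ⟨κ, hκ⟩ := powers_fillG hp hd hpd hpQ hQ0 hQd
  obtain ⟨e, he⟩ := p8b_exists_bound hd hco hr hp
  refine ⟨κ + (v + (κ + e)), fun k a a' h1 h2 => ?_⟩
  by_cases ha : (p : ℤ) ^ (v + (κ + e)) ∣ a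
  · have h3 : (p : ℤ) ^ (v + (κ + e)) ∣ a - a' := (pow_dvd_pow _ (by omega)).trans h1
    have ha' : (p : ℤ) ^ (v + (κ + e)) ∣ a' := by
      have e1 : a' = a - (a - a') := by ring
      rw [e1]
      exact dvd_sub ha h3
    have h2' : (Q : ℤ) ^ (k + 1) ∣ a' - a := by
      have e1 : a' - a = -(a - a') := by ring
      rw [e1]
      exact h2.neg_right
    exact ⟨prg_zero hd hco hp hv hm hpQ hκ e he k a a' ha ha' h2,
      prg_zero hd hco hp hv hm hpQ hκ e he k a' a ha' ha h2'⟩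
  · obtain ⟨e₁, he₁⟩ : ∃ e₁, v + (κ + e) = e₁ + 1 := ⟨v + (κ + e) - 1, by omega⟩
    rw [he₁] at ha
    refine prg_nonzero hd hco hp hv hm hpQ hκ (k + 1) e₁ ha ?_ h2
    exact (pow_dvd_pow _ (by omega)).trans h1

end PoolAgent.Helper28.PRG
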