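import Pool.Agent.Helper28.PRG.MSys
import Pool.Agent.Helper91.PL.EX

/-!
# Block PRE-P1A: words of chains

* `mem_Ch_props`: induction. A chain of `n` letters is a word `w ∈ W d |w|` with `sg w = b n`, last digit not `0`
  if `n ≥ 1`, `|w| ≤ Tm n`, `x w ≥ x1 b n`.
* `Ch_cancel`: if `u ++ v = u' ++ v'` with `u, u' ∈ Ch n` then `u = u'`: one of `u, u'` is an initial part of the other,
  `u' = u ++ z`, `sg z = 0` so all digits of `z` are `0`, and the last digit of `u'` is not `0` (`n ≥ 1`; for `n = 0` both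
  are empty), so `z = []`.
* `Ch_add`: `Ch (n + k)` is the image of `Ch n × Ch k` under `++` (induction on `k`, associativity).
-/

set_option autoImplicit false

namespace PoolAgent.Helper28.PRG

open Finset Pool.Agent.Helper68.Moeller Pool.Agent.Helper52.Tao Pool.Agent.Helper91

variable {P : MP}

theorem mem_Lt {w : List ℕ} : w ∈ P.Lt ↔ w.length ≤ P.Tm ∧ w ∈ W P.d w.length ∧ sg w = P.b ∧
    w.getLastD 0 ≠ 0 ∧ P.x1 * P.b ≤ P.x w := by
  unfold MP.Lt
  rw [mem_filter, mem_biUnion]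
  constructor
  · rintro ⟨⟨t, ht, hw⟩, h1, h2, h3⟩
    have hl := length_of_mem_W hw
    rw [mem_range] at ht
    refine ⟨by omega, ?_, h1, h2, h3⟩
    rw [hl]; exact hw
  · rintro ⟨h1, h2, h3, h4, h5⟩
    exact ⟨⟨w.length, mem_range.2 (by omega), h2⟩, h3, h4, h5⟩

theorem x_append (u v : List ℕ) : P.x (u ++ v) = P.x u + P.x v := by
  unfold MP.x
  rw [List.length_append, sg_append]
  push_cast
  ring

theorem h46_mem_Ch_succ {n : ℕ} {w : List ℕ} : w ∈ P.Ch (n + 1) ↔ ∃ u ∈ P.Ch n, ∃ v ∈ P.Lt, w = u ++ v := by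
  rw [MP.Ch, mem_image]
  constructor
  · rintro ⟨⟨u, v⟩, h, rfl⟩
    rw [mem_product] at h
    exact ⟨u, h.1, v, h.2, rfl⟩
  · rintro ⟨u, hu, v, hv, rfl⟩
    exact ⟨(u, v), mem_product.2 ⟨hu, hv⟩, rfl⟩

theorem h46_getLastD_append {u v : List ℕ} (hv : v ≠ []) : (u ++ v).getLastD 0 = v.getLastD 0 := by
  rw [List.getLastD_eq_getLast?, List.getLastD_eq_getLast?, List.getLast?_append_of_ne_nil _ hv]

theorem h46_sg_zero {z : List ℕ} (h : sg z = 0) : ∀ a ∈ z, a = 0 := by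
  induction z with
  | nil => simp
  | cons b z ih =>
    rw [sg_cons] at h
    intro a ha
    rw [List.mem_cons] at ha
    rcases ha with rfl | ha
    · by_contra hne
      have := nz_of_ne hne
      omega
    · exact ih (by omega) a ha

theorem mem_Ch_props (hP : P.Ok) {n : ℕ} {w : List ℕ} (hw : w ∈ P.Ch n) :
    w ∈ W P.d w.length ∧ sg w = P.b * n ∧ (1 ≤ n → w.getLastD 0 ≠ 0) ∧ w.length ≤ P.Tm * n ∧
      P.x1 * P.b * n ≤ P.x w := by
  induction n generalizing w with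
  | zero =>
    rw [MP.Ch, mem_singleton] at hw
    subst hw
    refine ⟨by simp [mem_W], by simp, fun h => by omega, by simp, ?_⟩
    simp [MP.x]
  | succ n ih =>
    obtain ⟨u, hu, v, hv, rfl⟩ := h46_mem_Ch_succ.1 hw
    obtain ⟨h1, h2, _, h4, h5⟩ := ih hu
    obtain ⟨g1, g2, g3, g4, g5⟩ := mem_Lt.1 hv
    have hb := hP.hb
    have hv0 : v ≠ [] := by
      rintro rfl
      rw [sg_nil] at g3
      omega
    refine ⟨?_, ?_, ?_, ?_, ?_⟩
    · rw [mem_W]
      refine ⟨rfl, fun a ha => ?_⟩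
      rw [List.mem_append] at ha
      rcases ha with ha | ha
      · exact (mem_W.1 h1).2 a ha
      · exact (mem_W.1 g2).2 a ha
    · rw [sg_append, h2, g3]; ring
    · intro _
      rw [h46_getLastD_append hv0]
      exact g4
    · rw [List.length_append]
      have : P.Tm * (n + 1) = P.Tm * n + P.Tm := by ring
      omega
    · rw [x_append]
      push_cast
      linarith

theorem h46_prefix (hP : P.Ok) {n : ℕ} {u z : List ℕ} (hu : u ∈ P.Ch n) (hu' : u ++ z ∈ P.Ch n) : z = [] := by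
  by_contra hz
  obtain ⟨_, h2, _, _, _⟩ := mem_Ch_props hP hu
  obtain ⟨_, g2, g3, _, _⟩ := mem_Ch_props hP hu'
  rw [sg_append, h2] at g2
  have hz0 : sg z = 0 := by omega
  rcases Nat.eq_zero_or_pos n with h0 | h0
  · subst h0
    rw [MP.Ch, mem_singleton] at hu'
    exact hz (List.append_eq_nil_iff.1 hu').2
  · apply g3 h0
    rw [h46_getLastD_append hz, List.getLastD_eq_getLast?, List.getLast?_eq_getLast_of_ne_nil hz, Option.getD_some]
    exact h46_sg_zero hz0 _ (List.getLast_mem hz)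

theorem Ch_cancel (hP : P.Ok) {n : ℕ} {u u' v v' : List ℕ} (hu : u ∈ P.Ch n) (hu' : u' ∈ P.Ch n)
    (h : u ++ v = u' ++ v') : u = u' ∧ v = v' := by
  rcases List.append_eq_append_iff.1 h with ⟨z, h1, h2⟩ | ⟨z, h1, h2⟩
  · subst h1
    have hz := h46_prefix hP hu hu'
    subst hz
    exact ⟨by simp, by simpa using h2⟩
  · subst h1
    have hz := h46_prefix hP hu' hu
    subst hz
    exact ⟨by simp, by simpa using h2.symm⟩

theorem Ch_one : P.Ch 1 = P.Lt := by
  ext w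
  rw [show (1 : ℕ) = 0 + 1 from rfl, h46_mem_Ch_succ]
  constructor
  · rintro ⟨u, hu, v, hv, rfl⟩
    rw [MP.Ch, mem_singleton] at hu
    subst hu
    exact hv
  · intro hw
    exact ⟨[], by rw [MP.Ch, mem_singleton], w, hw, rfl⟩

theorem Ch_add (n k : ℕ) : P.Ch (n + k) = (P.Ch n ×ˢ P.Ch k).image (fun y => y.1 ++ y.2) := by
  induction k with
  | zero =>
    ext w
    rw [mem_image]
    constructor
    · intro hw
      exact ⟨(w, []), mem_product.2 ⟨hw, by rw [MP.Ch, mem_singleton]⟩, by simp⟩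
    · rintro ⟨⟨u, v⟩, h, rfl⟩
      rw [mem_product] at h
      have h2 : v = [] := by
        have := h.2
        rwa [MP.Ch, mem_singleton] at this
      subst h2
      simpa using h.1
  | succ k ih =>
    ext w
    rw [← add_assoc, h46_mem_Ch_succ, ih, mem_image]
    constructor
    · rintro ⟨x, hx, v, hv, rfl⟩
      rw [mem_image] at hx
      obtain ⟨⟨u, y⟩, h, rfl⟩ := hx
      rw [mem_product] at h
      exact ⟨(u, y ++ v), mem_product.2 ⟨h.1, h46_mem_Ch_succ.2 ⟨y, h.2, v, hv, rfl⟩⟩, by simp⟩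
    · rintro ⟨⟨u, x⟩, h, rfl⟩
      rw [mem_product] at h
      obtain ⟨y, hy, v, hv, h2⟩ := h46_mem_Ch_succ.1 h.2
      simp only at h2
      subst h2
      exact ⟨u ++ y, mem_image.2 ⟨(u, y), mem_product.2 ⟨h.1, hy⟩, rfl⟩, v, hv, by simp⟩

/-- Sums over `Ch (n + k)`. -/
theorem sum_Ch_add (hP : P.Ok) (n k : ℕ) (f : List ℕ → ℝ) :
    ∑ w ∈ P.Ch (n + k), f w = ∑ u ∈ P.Ch n, ∑ v ∈ P.Ch k, f (u ++ v) := by
  rw [Ch_add, sum_image, sum_product]
  rintro ⟨u, v⟩ hy ⟨u', v'⟩ hy' h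
  rw [coe_product, Set.mem_prod] at hy hy'
  obtain ⟨h1, h2⟩ := Ch_cancel hP hy.1 hy'.1 h
  simp only at h1 h2
  rw [h1, h2]

end PoolAgent.Helper28.PRG
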