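import Pool.Agent.Helper28.PRG.P1a
import Pool.Agent.Helper28.PRG.P1e

/-!
# Block PRE-P1C: valid letters

`b` applications of `exists_child` with `i₀ = 2` give a word `w = w_1 ++ … ++ w_b`, `w_k = replicate i_k 0 ++ [j_k]`,
`2 ≤ i_k < o + 2`, of length in `[3 b, (o + 2) b]`, so `x w ≥ 3 b log d - b log m ≥ x1 b` (`hx3`). For the second letter use
`i_b + o` in the last step (length `≤ (o + 2) b + o ≤ Tm`).
(Induction on `b` for the statement about words with `b` non-zero digits; `hit_append_iff`, `pt_append`.)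
`valid_iff`: `p ^ N = m ^ b = m ^ sg w`, so `child w a = pt w a`.
-/

set_option autoImplicit false

namespace PoolAgent.Helper28.PRG

open Finset Pool.Agent.Helper68.Moeller Pool.Agent.Helper52.Tao Pool.Agent.Helper91

variable {P : MP}

theorem child_eq (hP : P.Ok) (g : ℝ) (w : {w : List ℕ // w ∈ P.Lt}) (a : ℤ) :
    (MS P hP g).child w a = PL.pt P.d P.m P.r w.1 a := by
  obtain ⟨-, -, hs, -, -⟩ := mem_Lt.1 w.2
  change ((P.d : ℤ) ^ w.1.length * a + Off P.d P.m P.r w.1) / (P.p : ℤ) ^ (P.v * P.b) = _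
  rw [pow_eq hP, PL.pt, hs]

theorem valid_iff (hP : P.Ok) (g : ℝ) (w : {w : List ℕ // w ∈ P.Lt}) (a : ℤ) :
    (MS P hP g).valid w a ↔
      PL.Hit P.d P.m P.r (sg w.1) a w.1 ∧ ¬ PL.Dead P.d P.m P.r (PL.pt P.d P.m P.r w.1 a) := by
  obtain ⟨-, -, hs, -, -⟩ := mem_Lt.1 w.2
  have h1 : (MS P hP g).valid w a ↔ ((P.p : ℤ) ^ (P.v * P.b) ∣ (P.d : ℤ) ^ w.1.length * a +
      Off P.d P.m P.r w.1 ∧ ¬ PL.Dead P.d P.m P.r ((MS P hP g).child w a)) := Iff.rfl
  rw [h1, child_eq, pow_eq hP, PL.Hit, hs]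

/-- Words with `n` non-zero digits and gaps. -/
theorem exists_word {d m p v s0 : ℕ} {r : ℤ → ℤ} (hB : Base d m p v s0 r) {o : ℕ} (ho : 1 ≤ o)
    (hmo : (m : ℤ) ^ (s0 + 1) ∣ (d : ℤ) ^ o - 1) (n : ℕ) {a : ℤ} (ha : ¬ PL.Dead d m r a) :
    ∃ w : List ℕ, (∀ x ∈ w, x < d) ∧ sg w = n ∧ 3 * n ≤ w.length ∧ w.length ≤ (o + 2) * n ∧
      PL.Hit d m r (sg w) a w ∧ ¬ PL.Dead d m r (PL.pt d m r w a) := by
  induction n with
  | zero =>
    refine ⟨[], by simp, by simp, by simp, by simp, ?_, ?_⟩
    · simp [PL.Hit]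
    · have h : PL.pt d m r [] a = a := by simp [PL.pt, Off]
      rw [h]
      exact ha
  | succ n ih =>
    obtain ⟨w, hw1, hw2, hw3, hw4, hw5, hw6⟩ := ih
    obtain ⟨i, hi1, hi2, j, hj1, hj2, hk⟩ := exists_child hB ho hmo 2 hw6
    obtain ⟨h1, h2⟩ := hk 0
    rw [Nat.mul_zero, Nat.add_zero] at h1 h2
    have hs : sg (List.replicate i 0 ++ [j]) = 1 := sg_rep (by omega) i
    have hHit : PL.Hit d m r (sg (w ++ (List.replicate i 0 ++ [j]))) a
        (w ++ (List.replicate i 0 ++ [j])) := (hit_append_iff hB).2 ⟨hw5, by rw [hs]; exact h1⟩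
    refine ⟨w ++ (List.replicate i 0 ++ [j]), ?_, ?_, ?_, ?_, hHit, ?_⟩
    · intro x hx
      rcases List.mem_append.1 hx with hx | hx
      · exact hw1 x hx
      · rcases List.mem_append.1 hx with hx | hx
        · have := List.eq_of_mem_replicate hx
          omega
        · rw [List.mem_singleton] at hx
          omega
    · rw [sg_append, hw2, hs]
    · simp only [List.length_append, List.length_replicate, List.length_cons, List.length_nil]
      omega
    · simp only [List.length_append, List.length_replicate, List.length_cons, List.length_nil]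
      have : (o + 2) * (n + 1) = (o + 2) * n + (o + 2) := by ring
      omega
    · rw [pt_append hB hHit]
      exact h2

/-- Two different valid letters at every alive point. -/
theorem MS_two (hP : P.Ok) (g : ℝ) : (MS P hP g).Two := by
  intro a ha
  have hB := hP.base
  obtain ⟨o, ho, hmo, hTm⟩ := hP.ho
  have hb := hP.hb
  obtain ⟨w, hw1, hw2, hw3, hw4, hw5, hw6⟩ := exists_word hB ho hmo (P.b - 1) ha
  obtain ⟨i, hi1, hi2, j, hj1, hj2, hk⟩ := exists_child hB ho hmo 2 hw6
  have key : ∀ k : ℕ, k ≤ 1 → ∃ w' : {w : List ℕ // w ∈ P.Lt}, (MS P hP g).valid w' a ∧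
      w'.1.length = w.length + (i + o * k + 1) := by
    intro k hk1
    obtain ⟨h1, h2⟩ := hk k
    have hs : sg (List.replicate (i + o * k) 0 ++ [j]) = 1 := sg_rep (by omega) _
    have hHit : PL.Hit P.d P.m P.r (sg (w ++ (List.replicate (i + o * k) 0 ++ [j]))) a
        (w ++ (List.replicate (i + o * k) 0 ++ [j])) :=
      (hit_append_iff hB).2 ⟨hw5, by rw [hs]; exact h1⟩
    have hlen : (w ++ (List.replicate (i + o * k) 0 ++ [j])).length = w.length + (i + o * k + 1) := by
      simp
    have hok : o * k ≤ o := by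
      calc o * k ≤ o * 1 := Nat.mul_le_mul_left _ hk1
        _ = o := Nat.mul_one _
    have hsb : sg (w ++ (List.replicate (i + o * k) 0 ++ [j])) = P.b := by
      rw [sg_append, hw2, hs]
      omega
    have hmem : w ++ (List.replicate (i + o * k) 0 ++ [j]) ∈ P.Lt := by
      refine mem_Lt.2 ⟨?_, mem_W.2 ⟨rfl, ?_⟩, hsb, ?_, ?_⟩
      · rw [hlen]
        have e1 : (o + 2) * P.b = (o + 2) * (P.b - 1) + (o + 2) := by
          obtain ⟨c, hc⟩ : ∃ c, P.b = c + 1 := ⟨P.b - 1, by omega⟩
          rw [hc]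
          simp only [Nat.add_sub_cancel]
          ring
        have e2 : (2 * o + 3) * P.b = (o + 2) * P.b + (o + 1) * P.b := by ring
        have e3 : o + 1 ≤ (o + 1) * P.b := Nat.le_mul_of_pos_right _ hb
        omega
      · intro x hx
        rcases List.mem_append.1 hx with hx | hx
        · exact hw1 x hx
        · rcases List.mem_append.1 hx with hx | hx
          · have := List.eq_of_mem_replicate hx
            have := hB.hd
            omega
          · rw [List.mem_singleton] at hx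
            omega
      · rw [← List.append_assoc, List.getLastD_concat]
        omega
      · unfold MP.x
        rw [hsb, hlen]
        have hld : 0 < Real.log P.d := Real.log_pos (by have := hB.hd; exact_mod_cast this)
        have e1 : ((3 * P.b : ℕ) : ℝ) ≤ ((w.length + (i + o * k + 1) : ℕ) : ℝ) := by
          exact_mod_cast (by omega : 3 * P.b ≤ w.length + (i + o * k + 1))
        have e2 := mul_le_mul_of_nonneg_right e1 hld.le
        have e3 := hP.hx3
        have hb0 : (0 : ℝ) ≤ P.b := Nat.cast_nonneg _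
        have e4 := mul_le_mul_of_nonneg_left e3 hb0
        push_cast at e2 ⊢
        linarith
    refine ⟨⟨_, hmem⟩, ?_, hlen⟩
    rw [valid_iff]
    refine ⟨hHit, ?_⟩
    dsimp only
    rw [pt_append hB hHit]
    exact h2
  obtain ⟨w₀, hv₀, hl₀⟩ := key 0 (by omega)
  obtain ⟨w₁, hv₁, hl₁⟩ := key 1 (by omega)
  refine ⟨w₀, w₁, ?_, hv₀, hv₁⟩
  intro h
  rw [h] at hl₀
  omega

end PoolAgent.Helper28.PRG
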