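import Pool.Agent.Helper28.PRG.P1c

/-!
# Block PRE-P1D: the number of chains as a sum over words

Induction on `n`. `n = 0`: the empty word, `pt [] a = a`. Step: `Z (n + 1) a = ∑_w [valid w a] om w Z n (child w a)`,
`sum_Ch_add` for `Ch (1 + n)`, `Ch_one`, `hit_append_iff`, `pt_append`, `x_append`; if `u ++ v` is counted then `pt u a` is alive by
`dead_pt` (otherwise `pt v (pt u a)` would be dead).
-/

set_option autoImplicit false

namespace PoolAgent.Helper28.PRG

open Finset Pool.Agent.Helper68.Moeller Pool.Agent.Helper52.Tao Pool.Agent.Helper91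

variable {P : MP}

/-- Sums over the letters of the system. -/
theorem sum_iota (hP : P.Ok) (g : ℝ) (f : List ℕ → ℝ) :
    ∑ w : (MS P hP g).ι, f w.1 = ∑ w ∈ P.Lt, f w :=
  (Finset.sum_subtype (F := (MS P hP g).fin) P.Lt (fun _ => Iff.rfl) f).symm

open Classical in
theorem MS_Z (hP : P.Ok) (g : ℝ) (n : ℕ) {a : ℤ} (ha : ¬ PL.Dead P.d P.m P.r a) :
    (MS P hP g).Z n a = ∑ w ∈ (P.Ch n).filter (fun w => PL.Hit P.d P.m P.r (sg w) a w ∧
      ¬ PL.Dead P.d P.m P.r (PL.pt P.d P.m P.r w a)), Real.exp (-(g * P.x w)) := by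
  induction n generalizing a with
  | zero =>
    have h : PL.pt P.d P.m P.r [] a = a := by simp [PL.pt, Off]
    have h2 : PL.Hit P.d P.m P.r (sg []) a [] := by simp [PL.Hit]
    rw [MP.Ch, sum_filter, sum_singleton, if_pos ⟨h2, by rw [h]; exact ha⟩]
    simp [PoolAgent.Helper28.ED.Sys.Z, MP.x]
  | succ n ih =>
    have hB := hP.base
    rw [PoolAgent.Helper28.ED.Sys.Z, sum_filter, Nat.add_comm n 1, sum_Ch_add hP, Ch_one,
      ← sum_iota hP g]
    refine sum_congr rfl fun w _ => ?_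
    rw [valid_iff, child_eq]
    split_ifs with hv
    · rw [ih hv.2, sum_filter, mul_sum]
      refine sum_congr rfl fun u _ => ?_
      have hiff : (PL.Hit P.d P.m P.r (sg (w.1 ++ u)) a (w.1 ++ u) ∧
          ¬ PL.Dead P.d P.m P.r (PL.pt P.d P.m P.r (w.1 ++ u) a)) ↔
          (PL.Hit P.d P.m P.r (sg u) (PL.pt P.d P.m P.r w.1 a) u ∧
            ¬ PL.Dead P.d P.m P.r (PL.pt P.d P.m P.r u (PL.pt P.d P.m P.r w.1 a))) := by
        constructor
        · rintro ⟨h1, h2⟩
          rw [pt_append hB h1] at h2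
          exact ⟨((hit_append_iff hB).1 h1).2, h2⟩
        · rintro ⟨h1, h2⟩
          have h3 := (hit_append_iff hB).2 ⟨hv.1, h1⟩
          exact ⟨h3, by rw [pt_append hB h3]; exact h2⟩
      by_cases hc : PL.Hit P.d P.m P.r (sg u) (PL.pt P.d P.m P.r w.1 a) u ∧
            ¬ PL.Dead P.d P.m P.r (PL.pt P.d P.m P.r u (PL.pt P.d P.m P.r w.1 a))
      · rw [if_pos hc, if_pos (hiff.2 hc)]
        change Real.exp (-(g * P.x w.1)) * _ = _
        rw [← Real.exp_add, x_append]
        congr 1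
        ring
      · rw [if_neg hc, if_neg (fun h => hc (hiff.1 h)), mul_zero]
    · symm
      refine sum_eq_zero fun u hu => ?_
      rw [if_neg]
      rintro ⟨h1, h2⟩
      obtain ⟨h3, h4⟩ := (hit_append_iff hB).1 h1
      rw [pt_append hB h1] at h2
      refine hv ⟨h3, fun hdead => h2 ?_⟩
      exact dead_pt hB (mem_Ch_props hP hu).1 h4 hdead

open Classical in
theorem MS_Z1 (hP : P.Ok) (g : ℝ) (a : ℤ) :
    (MS P hP g).Z1 a = ∑ w ∈ P.Lt.filter (fun w => PL.Hit P.d P.m P.r (sg w) a w ∧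
      ¬ PL.Dead P.d P.m P.r (PL.pt P.d P.m P.r w a)), Real.exp (-(g * P.x w)) := by
  rw [PoolAgent.Helper28.ED.Sys.Z1, sum_filter, ← sum_iota hP g]
  refine sum_congr rfl fun w _ => ?_
  rw [valid_iff]
  split_ifs
  · rfl
  · rfl

end PoolAgent.Helper28.PRG
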