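import Pool.Agent.Helper28.PRG.P5d
import Pool.Agent.Helper91.PL.POS
import Pool.Agent.Helper91.PL.DE

/-!
# Block PRE-P5B: typical points have a large `Z1`

For the exponent `1` and `b` large all but a small proportion of the alive residues `a` modulo `m ^ (b + s0)` satisfy
`Z1 a ≥ δ'`. `K = b + s0`. By `PL.pos` (`nu K a > 0` for alive `a`, `PL.dead_iff`) all but `(ε/3) m ^ K` of the alive residues
have `m ^ K nu K a = fk K a > δ`. By `PL.sum_nu_sub_nut_le` (`Tm ≥ 10 b ≥ 5 K` for `b ≥ s0`) and Markov all but `(ε/3) m ^ K`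
have `m ^ K (nu K a - nut Tm K a) ≤ δ / 4`, as soon as `(9 / 10) ^ Tm ≤ ε δ / 12`. By `sum_Sh` and `chebyshev` (with
`τ = ⌊(log m + x1) b / log d⌋`, `b - (1 - 1/d) τ ≥ η b`, `η = 1 - (1 - 1/d) (log m + x1) / log d > 0`) all but `(ε/3) m ^ K` have
`Sh a ≤ δ / (4 m ^ s0)`. For the other alive `a` (`Z_one_ge`): `Z1 a ≥ m ^ (- s0) (δ - δ / 4) - δ / (4 m ^ s0) = δ / (2 m ^ s0)`.
-/

set_option autoImplicit false

namespace PoolAgent.Helper28.PRG

open Finset Pool.Agent.Helper68.Moeller Pool.Agent.Helper52.Tao Pool.Agent.Helper91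

open Classical in
/-- Markov's inequality on a finite set. -/
theorem markov_card {s : Finset ℕ} {f : ℕ → ℝ} (hf : ∀ a ∈ s, 0 ≤ f a) {c : ℝ} (hc : 0 < c) :
    ((s.filter (fun a => c < f a)).card : ℝ) ≤ (∑ a ∈ s, f a) / c := by
  rw [le_div_iff₀ hc]
  calc ((s.filter (fun a => c < f a)).card : ℝ) * c = ∑ a ∈ s.filter (fun a => c < f a), c := by
        rw [sum_const, nsmul_eq_mul]
    _ ≤ ∑ a ∈ s.filter (fun a => c < f a), f a :=
        sum_le_sum fun a ha => (mem_filter.1 ha).2.le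
    _ ≤ ∑ a ∈ s, f a := sum_le_sum_of_subset_of_nonneg (filter_subset _ _) fun a ha _ => hf a ha

/-- The proportion of the long words with few digits. -/
theorem short_prob {d : ℕ} (hd : 2 ≤ d) {τ b : ℕ} {η c : ℝ} (hη : 0 < η) (hb : 1 ≤ b)
    (h1 : η * b ≤ b - (1 - 1 / (d : ℝ)) * τ) (h2 : (τ : ℝ) ≤ c * b) :
    cW d τ (fun w => b ≤ sg w) / (d : ℝ) ^ τ ≤ 4 * c / (η ^ 2 * b) := by
  have hb0 : (0 : ℝ) < b := by exact_mod_cast hb
  have hd0 : (0 : ℝ) < d := by exact_mod_cast (by omega : 0 < d)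
  have hdp : (0 : ℝ) < (d : ℝ) ^ τ := by positivity
  have hR : 0 < η * b / 2 := by positivity
  have h3 := chebyshev hd τ hR
  have h4 : cW d τ (fun w => b ≤ sg w) ≤
      cW d τ (fun w => η * b / 2 < |(sg w : ℝ) - (1 - 1 / (d : ℝ)) * τ|) := by
    refine cW_mono fun w _ hw => ?_
    have hw' : (b : ℝ) ≤ sg w := by exact_mod_cast hw
    refine lt_of_lt_of_le ?_ (le_abs_self _)
    have : η * b / 2 < η * b := by linarith
    linarith
  have h5 : cW d τ (fun w => b ≤ sg w) ≤ (d : ℝ) ^ τ * (τ / (η * b / 2) ^ 2) := h4.trans h3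
  rw [div_le_iff₀ hdp]
  refine h5.trans ?_
  rw [mul_comm]
  refine mul_le_mul_of_nonneg_right ?_ hdp.le
  rw [div_le_div_iff₀ (by positivity) (by positivity)]
  have h6 : (τ : ℝ) * (η ^ 2 * b) ≤ (c * b) * (η ^ 2 * b) :=
    mul_le_mul_of_nonneg_right h2 (by positivity)
  calc (τ : ℝ) * (η ^ 2 * b) ≤ (c * b) * (η ^ 2 * b) := h6
    _ = 4 * c * (η * b / 2) ^ 2 := by ring

open Classical in
theorem typical {d m p v s0 : ℕ} {r : ℤ → ℤ} (hB : Base d m p v s0 r) (hmix : Mixing d m r)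
    {x1 : ℝ} (hx : 0 < x1) (hx1 : (1 - 1 / (d : ℝ)) * (Real.log m + x1) < Real.log d) {ε : ℝ}
    (hε : 0 < ε) :
    ∃ δ : ℝ, 0 < δ ∧ ∃ b₀ : ℕ, ∀ b Tm : ℕ, b₀ ≤ b → 10 * b ≤ Tm →
      ∀ hP : (⟨d, m, p, v, s0, b, Tm, r, x1⟩ : MP).Ok,
        ((((range (m ^ (b + s0))).filter (fun a : ℕ => ¬ PL.Dead d m r (a : ℤ) ∧
          (MS ⟨d, m, p, v, s0, b, Tm, r, x1⟩ hP 1).Z1 (a : ℤ) < δ)).card : ℕ) : ℝ) ≤
            ε * (m : ℝ) ^ (b + s0) := by
  have hd := hB.hd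
  have hdm := hB.hdm
  have hco := hB.hco
  have hm1 : 1 ≤ m := by omega
  have hm0 : (0 : ℝ) < m := by exact_mod_cast (by omega : 0 < m)
  have hd0 : (0 : ℝ) < d := by exact_mod_cast (by omega : 0 < d)
  have hd2 : (2 : ℝ) ≤ d := by exact_mod_cast hd
  have hld : 0 < Real.log d := Real.log_pos (by linarith)
  have hlm : 0 ≤ Real.log m := Real.log_nonneg (by exact_mod_cast hm1)
  obtain ⟨δ, hδ, K0, hK0⟩ := PL.pos (r := r) hd hdm hco hmix (ε := ε / 3) (by positivity)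
  set c : ℝ := (Real.log m + x1) / Real.log d with hc
  have hc0 : 0 < c := by positivity
  set η : ℝ := 1 - (1 - 1 / (d : ℝ)) * c with hη
  have hη0 : 0 < η := by
    have : (1 - 1 / (d : ℝ)) * c < 1 := by
      rw [hc, ← mul_div_assoc, div_lt_one hld]
      exact hx1
    linarith
  have h1d : 0 ≤ 1 - 1 / (d : ℝ) := by
    rw [sub_nonneg, div_le_one hd0]
    linarith
  -- the bounds for `b`
  obtain ⟨T1, hT1⟩ := exists_pow_lt_of_lt_one (show (0 : ℝ) < ε * δ / 12 by positivity)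
    (show (9 / 10 : ℝ) < 1 by norm_num)
  obtain ⟨b1, hb1⟩ := exists_nat_ge (48 * (m : ℝ) ^ s0 * c / (δ * ε * η ^ 2))
  refine ⟨δ / (2 * (m : ℝ) ^ s0), by positivity, max (max K0 T1) (max (b1 + 1) s0), ?_⟩
  intro b Tm hb hTm hP
  have hbK : K0 ≤ b := (le_max_left _ _).trans ((le_max_left _ _).trans hb)
  have hbT : T1 ≤ b := (le_max_right _ _).trans ((le_max_left _ _).trans hb)
  have hbb : b1 + 1 ≤ b := (le_max_left _ _).trans ((le_max_right _ _).trans hb)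
  have hbs : s0 ≤ b := (le_max_right _ _).trans ((le_max_right _ _).trans hb)
  have hb1' : 1 ≤ b := by omega
  have hb0 : (0 : ℝ) < b := by exact_mod_cast hb1'
  set P : MP := ⟨d, m, p, v, s0, b, Tm, r, x1⟩ with hPdef
  have hmK : (0 : ℝ) < (m : ℝ) ^ (b + s0) := by positivity
  have hms : (0 : ℝ) < (m : ℝ) ^ s0 := by positivity
  -- the three exceptional sets
  set E1 := (range (m ^ (b + s0))).filter
    (fun a : ℕ => 0 < PL.nu d m r (b + s0) (a : ℤ) ∧ PL.fk d m r (b + s0) (a : ℤ) ≤ δ) with hE1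
  set E2 := (range (m ^ (b + s0))).filter
    (fun a : ℕ => δ / 4 / (m : ℝ) ^ (b + s0) <
      PL.nu d m r (b + s0) (a : ℤ) - PL.nut d m r Tm (b + s0) (a : ℤ)) with hE2
  set E3 := (range (m ^ (b + s0))).filter
    (fun a : ℕ => δ / (4 * (m : ℝ) ^ s0) < Sh P (a : ℤ)) with hE3
  have hsub : (range (m ^ (b + s0))).filter (fun a : ℕ => ¬ PL.Dead d m r (a : ℤ) ∧
      (MS P hP 1).Z1 (a : ℤ) < δ / (2 * (m : ℝ) ^ s0)) ⊆ E1 ∪ E2 ∪ E3 := by
    intro a ha
    obtain ⟨ha0, hal, haZ⟩ := mem_filter.1 ha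
    by_contra hcon
    have hn1 : a ∉ E1 := fun h => hcon (mem_union_left _ (mem_union_left _ h))
    have hn2 : a ∉ E2 := fun h => hcon (mem_union_left _ (mem_union_right _ h))
    have hn3 : a ∉ E3 := fun h => hcon (mem_union_right _ h)
    have hnu : 0 < PL.nu d m r (b + s0) (a : ℤ) := by
      refine lt_of_le_of_ne (PL.nu_nonneg _ _) fun h0 => ?_
      exact hal ((PL.dead_iff hd hdm hco hB.hr (a : ℤ)).2 ⟨_, h0.symm⟩)
    have hfk : δ < PL.fk d m r (b + s0) (a : ℤ) := by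
      by_contra hh
      exact hn1 (mem_filter.2 ⟨ha0, hnu, not_lt.1 hh⟩)
    have hnt : PL.nu d m r (b + s0) (a : ℤ) - PL.nut d m r Tm (b + s0) (a : ℤ) ≤
        δ / 4 / (m : ℝ) ^ (b + s0) := by
      by_contra hh
      exact hn2 (mem_filter.2 ⟨ha0, not_le.1 hh⟩)
    have hsh : Sh P (a : ℤ) ≤ δ / (4 * (m : ℝ) ^ s0) := by
      by_contra hh
      exact hn3 (mem_filter.2 ⟨ha0, not_le.1 hh⟩)
    have hZ := Z_one_ge hP (a : ℤ)
    have hZ' : (m : ℝ) ^ b * PL.nut d m r Tm (b + s0) (a : ℤ) - Sh P (a : ℤ) ≤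
        (MS P hP 1).Z1 (a : ℤ) := hZ
    unfold PL.fk at hfk
    have h1 : δ / 4 / (m : ℝ) ^ (b + s0) * (m : ℝ) ^ (b + s0) = δ / 4 :=
      div_mul_cancel₀ _ hmK.ne'
    have h2 : (m : ℝ) ^ (b + s0) * PL.nut d m r Tm (b + s0) (a : ℤ) ≥ 3 * δ / 4 := by
      have h3 := mul_le_mul_of_nonneg_right hnt hmK.le
      rw [h1] at h3
      nlinarith
    have h4 : (m : ℝ) ^ b * PL.nut d m r Tm (b + s0) (a : ℤ) ≥ 3 * δ / 4 / (m : ℝ) ^ s0 := by
      rw [ge_iff_le, div_le_iff₀ hms]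
      rw [pow_add] at h2
      linarith
    have h5 : 3 * δ / 4 / (m : ℝ) ^ s0 - δ / (4 * (m : ℝ) ^ s0) = δ / (2 * (m : ℝ) ^ s0) := by
      field_simp
      ring
    linarith
  have hc1 : (E1.card : ℝ) ≤ ε / 3 * (m : ℝ) ^ (b + s0) := hK0 (b + s0) (by omega)
  have hc2 : (E2.card : ℝ) ≤ ε / 3 * (m : ℝ) ^ (b + s0) := by
    have h1 := markov_card (s := range (m ^ (b + s0)))
      (f := fun a : ℕ => PL.nu d m r (b + s0) (a : ℤ) - PL.nut d m r Tm (b + s0) (a : ℤ))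
      (fun a _ => sub_nonneg.2 (PL.nut_le_nu _ _ _)) (c := δ / 4 / (m : ℝ) ^ (b + s0)) (by positivity)
    have h2 := PL.sum_nu_sub_nut_le (r := r) hd hm1 hco (t := Tm) (k := b + s0) (by omega)
    have h3 : ((9 : ℝ) / 10) ^ Tm ≤ ε * δ / 12 := by
      refine (pow_le_pow_of_le_one (by norm_num) (by norm_num) (show T1 ≤ Tm by omega)).trans hT1.le
    refine h1.trans ?_
    rw [div_le_iff₀ (by positivity)]
    refine (h2.trans h3).trans (le_of_eq ?_)
    field_simp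
    ring
  have hc3 : (E3.card : ℝ) ≤ ε / 3 * (m : ℝ) ^ (b + s0) := by
    have h1 := markov_card (s := range (m ^ (b + s0))) (f := fun a : ℕ => Sh P (a : ℤ))
      (fun a _ => Sh_nonneg _) (c := δ / (4 * (m : ℝ) ^ s0)) (by positivity)
    set τ : ℕ := ⌊c * b⌋₊ with hτ
    have hτ1 : (τ : ℝ) ≤ c * b := Nat.floor_le (by positivity)
    have hτ2 : c * b < τ + 1 := Nat.lt_floor_add_one _
    have h2 := sum_Sh hP (τ := τ) (by
      change (Real.log m + x1) * b ≤ (τ + 1) * Real.log d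
      have h3 : (Real.log m + x1) * b = c * b * Real.log d := by
        rw [hc]
        field_simp
      rw [h3]
      exact mul_le_mul_of_nonneg_right hτ2.le hld.le)
    have h2' : ∑ a ∈ range (m ^ (b + s0)), Sh P (a : ℤ) ≤
      (m : ℝ) ^ (b + s0) * (cW d τ (fun w => b ≤ sg w) / (d : ℝ) ^ τ) := h2
    have h4 := short_prob (c := c) (τ := τ) (b := b) hd hη0 hb1' (by
      have h5 : (1 - 1 / (d : ℝ)) * τ ≤ (1 - 1 / (d : ℝ)) * (c * b) :=
        mul_le_mul_of_nonneg_left hτ1 h1d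
      rw [hη]
      nlinarith) hτ1
    have h6 : 4 * c / (η ^ 2 * b) ≤ ε / 3 * (δ / (4 * (m : ℝ) ^ s0)) := by
      have h7 : 48 * (m : ℝ) ^ s0 * c / (δ * ε * η ^ 2) ≤ b := by
        refine hb1.trans ?_
        exact_mod_cast (by omega : b1 ≤ b)
      rw [div_le_iff₀ (by positivity)] at h7 ⊢
      have h8 : ε / 3 * (δ / (4 * (m : ℝ) ^ s0)) * (η ^ 2 * b) =
          (b * (δ * ε * η ^ 2)) / (12 * (m : ℝ) ^ s0) := by
        field_simp
        ring
      rw [h8, le_div_iff₀ (by positivity)]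
      linarith
    refine h1.trans ?_
    rw [div_le_iff₀ (by positivity)]
    calc ∑ a ∈ range (m ^ (b + s0)), Sh P (a : ℤ) ≤
      (m : ℝ) ^ (b + s0) * (cW d τ (fun w => b ≤ sg w) / (d : ℝ) ^ τ) := h2'
      _ ≤ (m : ℝ) ^ (b + s0) * (ε / 3 * (δ / (4 * (m : ℝ) ^ s0))) :=
        mul_le_mul_of_nonneg_left (h4.trans h6) hmK.le
      _ = ε / 3 * (m : ℝ) ^ (b + s0) * (δ / (4 * (m : ℝ) ^ s0)) := by ring
  have hcard : (((range (m ^ (b + s0))).filter (fun a : ℕ => ¬ PL.Dead d m r (a : ℤ) ∧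
      (MS P hP 1).Z1 (a : ℤ) < δ / (2 * (m : ℝ) ^ s0))).card : ℝ) ≤
      (E1.card : ℝ) + E2.card + E3.card := by
    have h1 := card_le_card hsub
    have h2 := card_union_le (E1 ∪ E2) E3
    have h3 := card_union_le E1 E2
    have h4 : _ ≤ E1.card + E2.card + E3.card := h1.trans (h2.trans (Nat.add_le_add_right h3 _))
    have h5 := Nat.cast_le (α := ℝ).2 h4
    rw [Nat.cast_add, Nat.cast_add] at h5
    exact h5
  linarith

end PoolAgent.Helper28.PRG
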