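import Pool.Agent.Helper28.PRG.P5a

/-!
# Block PRE-P5D: the short words

For each `w1` with `sg w1 = b` there are `m ^ s0` residues `a` modulo `m ^ (b + s0)` with `Hit b a w1` (`PL.nua_card_res` for the modulus
`m ^ b`), so the sum is `≤ m ^ s0 m ^ b ∑_{w1 short} d ^ (-|w1|)`. For short `w1`: `|w1| log d < (log m + x1) b ≤ (τ + 1) log d`, so
`|w1| ≤ τ`, and the words `w1 ++ v`, `v ∈ W d (τ - |w1|)`, are different words of length `τ` with `sg ≥ b` (cancellation as in
`Ch_cancel`: `sg w1 = b` and the last digit of `w1` is not `0`), so `∑_{w1 short} d ^ (-|w1|) ≤ cW d τ (b ≤ sg w) / d ^ τ`.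
-/

set_option autoImplicit false

namespace PoolAgent.Helper28.PRG

open Finset Pool.Agent.Helper68.Moeller Pool.Agent.Helper52.Tao Pool.Agent.Helper91

variable {P : MP}

theorem getLastD_zero_h9 {u z : List ℕ} (hz : sg z = 0) (hne : z ≠ []) :
    (u ++ z).getLastD 0 = 0 := by
  rcases List.eq_nil_or_concat z with h | ⟨z', a, h⟩
  · exact absurd h hne
  · subst h
    rw [List.concat_eq_append, sg_append, sg_cons, sg_nil] at hz
    have ha : a = 0 := by
      by_contra h0
      have := nz_of_ne h0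
      omega
    rw [List.concat_eq_append, ← List.append_assoc, ha]
    simp

theorem cancel_h9 {u v u' v' : List ℕ} (h : u ++ v = u' ++ v') (hs : sg u = sg u')
    (hu : u.getLastD 0 ≠ 0) (hu' : u'.getLastD 0 ≠ 0) : u = u' := by
  rcases List.append_eq_append_iff.1 h with ⟨z, h1, -⟩ | ⟨z, h1, -⟩
  · by_cases hz : z = []
    · rw [h1, hz, List.append_nil]
    · exfalso
      apply hu'
      rw [h1]
      refine getLastD_zero_h9 ?_ hz
      rw [h1, sg_append] at hs
      omega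
  · by_cases hz : z = []
    · rw [h1, hz, List.append_nil]
    · exfalso
      apply hu
      rw [h1]
      refine getLastD_zero_h9 ?_ hz
      rw [h1, sg_append] at hs
      omega

/-- A sum over a complete period, repeated. -/
theorem sum_period_h9 {M : ℕ} (f : ℕ → ℝ) (hf : ∀ i k : ℕ, f (M * k + i) = f i) (K : ℕ) :
    ∑ a ∈ range (M * K), f a = K * ∑ a ∈ range M, f a := by
  induction K with
  | zero => simp
  | succ K ih =>
    rw [Nat.mul_succ, Finset.sum_range_add, ih]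
    simp_rw [hf]
    push_cast
    ring

open Classical in
/-- The short words. -/
noncomputable def ShW_h9 (P : MP) : Finset (List ℕ) :=
  ((range (P.Tm + 1)).biUnion (fun t => W P.d t)).filter
    (fun w => sg w = P.b ∧ w.getLastD 0 ≠ 0 ∧ P.x w < P.x1 * P.b)

open Classical in
theorem Sh_le_h9 (a : ℤ) : Sh P a ≤ ∑ w ∈ ShW_h9 P,
    if PL.Hit P.d P.m P.r (sg w) a w then (P.m : ℝ) ^ P.b * (1 / (P.d : ℝ)) ^ w.length else 0 := by
  unfold Sh
  rw [← Finset.sum_filter]
  refine Finset.sum_le_sum_of_subset_of_nonneg ?_ (fun w _ _ => by positivity)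
  intro w hw
  simp only [Pre, Finset.mem_filter] at hw
  simp only [ShW_h9, Finset.mem_filter]
  exact ⟨⟨hw.1.1, hw.1.2.1, hw.1.2.2.1, hw.2⟩, hw.1.2.2.2.1⟩

open Classical in
theorem card_hit_h9 (hP : P.Ok) (w : List ℕ) (hw : sg w = P.b) :
    ∑ a ∈ range (P.m ^ (P.b + P.s0)), (if PL.Hit P.d P.m P.r (sg w) (a : ℤ) w then (1 : ℝ) else 0) =
      (P.m : ℝ) ^ P.s0 := by
  have hm0 : 0 < P.m := by
    have h1 := hP.base.hd
    have h2 := hP.base.hdm
    omega
  rw [pow_add, sum_period_h9]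
  · have hM : 0 < P.m ^ P.b := pow_pos hm0 _
    have hco : IsCoprime ((P.m ^ P.b : ℕ) : ℤ) ((P.d : ℤ) ^ w.length) := by
      have h1 : IsCoprime (P.m : ℤ) (P.d : ℤ) := Nat.isCoprime_iff_coprime.2 hP.base.hco
      push_cast
      exact h1.pow
    have h2 := PL.nua_card_res hM hco (Off P.d P.m P.r w)
    have h3 : ∑ a ∈ range (P.m ^ P.b), (if PL.Hit P.d P.m P.r (sg w) (a : ℤ) w then (1 : ℝ) else 0)
        = 1 := by
      rw [← Finset.sum_filter, Finset.sum_const, nsmul_eq_mul, mul_one]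
      have h4 : (range (P.m ^ P.b)).filter (fun a : ℕ => PL.Hit P.d P.m P.r (sg w) (a : ℤ) w) =
          (range (P.m ^ P.b)).filter (fun b : ℕ => ((P.m ^ P.b : ℕ) : ℤ) ∣
            (P.d : ℤ) ^ w.length * (b : ℤ) + Off P.d P.m P.r w) := by
        refine Finset.filter_congr fun a _ => ?_
        unfold PL.Hit
        rw [hw]
        push_cast
        rfl
      rw [h4, h2, Nat.cast_one]
    rw [h3, mul_one]
    push_cast
    rfl
  · intro i k
    have h5 : PL.Hit P.d P.m P.r (sg w) ((P.m ^ P.b * k + i : ℕ) : ℤ) w ↔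
        PL.Hit P.d P.m P.r (sg w) (i : ℤ) w := by
      unfold PL.Hit
      rw [hw]
      push_cast
      refine dvd_iff_dvd_of_dvd_sub ?_
      exact ⟨(P.d : ℤ) ^ w.length * k, by ring⟩
    by_cases h6 : PL.Hit P.d P.m P.r (sg w) (i : ℤ) w
    · rw [if_pos h6, if_pos (h5.2 h6)]
    · rw [if_neg h6, if_neg (fun h7 => h6 (h5.1 h7))]

open Classical in
theorem sum_ShW_h9 (hP : P.Ok) {τ : ℕ}
    (hτ : (Real.log P.m + P.x1) * P.b ≤ (τ + 1) * Real.log P.d) :
    ∑ w ∈ ShW_h9 P, (1 / (P.d : ℝ)) ^ w.length ≤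
      cW P.d τ (fun w => P.b ≤ sg w) / (P.d : ℝ) ^ τ := by
  have hd2 := hP.base.hd
  have hd0 : (0 : ℝ) < P.d := by
    have : 0 < P.d := by omega
    exact_mod_cast this
  have hlog : 0 < Real.log P.d := Real.log_pos (by
    have : 1 < P.d := by omega
    exact_mod_cast this)
  have hlen : ∀ w ∈ ShW_h9 P, w.length ≤ τ := by
    intro w hw
    simp only [ShW_h9, Finset.mem_filter] at hw
    obtain ⟨-, hsg, -, hx⟩ := hw
    unfold MP.x at hx
    rw [hsg] at hx
    have h1 : (w.length : ℝ) * Real.log P.d < (τ + 1) * Real.log P.d := by nlinarith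
    have h2 : (w.length : ℝ) < τ + 1 := lt_of_mul_lt_mul_right h1 hlog.le
    have h3 : w.length < τ + 1 := by exact_mod_cast h2
    omega
  rw [le_div_iff₀ (by positivity), Finset.sum_mul]
  have h1 : ∀ w ∈ ShW_h9 P, (1 / (P.d : ℝ)) ^ w.length * (P.d : ℝ) ^ τ =
      ((W P.d (τ - w.length)).card : ℝ) := by
    intro w hw
    have h2 := hlen w hw
    rw [card_W, one_div, inv_pow, Nat.cast_pow]
    have h3 : (P.d : ℝ) ^ τ = (P.d : ℝ) ^ w.length * (P.d : ℝ) ^ (τ - w.length) := by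
      rw [← pow_add]
      congr 1
      omega
    rw [h3, ← mul_assoc, inv_mul_cancel₀ (by positivity), one_mul]
  rw [Finset.sum_congr rfl h1, ← Nat.cast_sum, ← Finset.card_sigma]
  unfold cW
  rw [Nat.cast_le]
  refine Finset.card_le_card_of_injOn
    (fun z : (_ : List ℕ) × List ℕ => z.1 ++ z.2) ?_ ?_
  · rintro ⟨w, v⟩ hz
    simp only [Finset.mem_coe, Finset.mem_sigma] at hz
    obtain ⟨hw, hv⟩ := hz
    have h2 := hlen w hw
    simp only [ShW_h9, Finset.mem_filter, Finset.mem_biUnion] at hw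
    obtain ⟨⟨t, -, ht⟩, hsg, -, -⟩ := hw
    rw [mem_W] at ht hv
    simp only [Finset.mem_coe, Finset.mem_filter]
    refine ⟨?_, ?_⟩
    · rw [mem_W]
      refine ⟨?_, ?_⟩
      · rw [List.length_append, hv.1]
        omega
      · intro a ha
        rcases List.mem_append.1 ha with h | h
        · exact ht.2 a h
        · exact hv.2 a h
    · rw [sg_append, hsg]
      omega
  · rintro ⟨w, v⟩ hz ⟨w', v'⟩ hz' heq
    simp only [Finset.mem_coe, Finset.mem_sigma] at hz hz'
    obtain ⟨hw, hv⟩ := hz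
    obtain ⟨hw', hv'⟩ := hz'
    simp only [ShW_h9, Finset.mem_filter] at hw hw'
    have heq' : w ++ v = w' ++ v' := heq
    have h3 := cancel_h9 heq' (by rw [hw.2.1, hw'.2.1]) hw.2.2.1 hw'.2.2.1
    subst h3
    have h4 := List.append_cancel_left heq'
    subst h4
    rfl

open Classical in
theorem sum_Sh (hP : P.Ok) {τ : ℕ}
    (hτ : (Real.log P.m + P.x1) * P.b ≤ (τ + 1) * Real.log P.d) :
    ∑ a ∈ range (P.m ^ (P.b + P.s0)), Sh P (a : ℤ) ≤
      (P.m : ℝ) ^ (P.b + P.s0) * (cW P.d τ (fun w => P.b ≤ sg w) / (P.d : ℝ) ^ τ) := by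
  calc ∑ a ∈ range (P.m ^ (P.b + P.s0)), Sh P (a : ℤ)
      ≤ ∑ a ∈ range (P.m ^ (P.b + P.s0)), ∑ w ∈ ShW_h9 P,
        (if PL.Hit P.d P.m P.r (sg w) (a : ℤ) w then
          (P.m : ℝ) ^ P.b * (1 / (P.d : ℝ)) ^ w.length else 0) :=
        Finset.sum_le_sum fun a _ => Sh_le_h9 (a : ℤ)
    _ = ∑ w ∈ ShW_h9 P, (P.m : ℝ) ^ (P.b + P.s0) * (1 / (P.d : ℝ)) ^ w.length := by
        rw [Finset.sum_comm]
        refine Finset.sum_congr rfl fun w hw => ?_
        have hsg : sg w = P.b := by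
          simp only [ShW_h9, Finset.mem_filter] at hw
          exact hw.2.1
        have h1 : ∀ a ∈ range (P.m ^ (P.b + P.s0)),
            (if PL.Hit P.d P.m P.r (sg w) (a : ℤ) w then
              (P.m : ℝ) ^ P.b * (1 / (P.d : ℝ)) ^ w.length else 0) =
            (if PL.Hit P.d P.m P.r (sg w) (a : ℤ) w then (1 : ℝ) else 0) *
              ((P.m : ℝ) ^ P.b * (1 / (P.d : ℝ)) ^ w.length) := by
          intro a _
          split_ifs
          · rw [one_mul]
          · rw [zero_mul]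
        rw [Finset.sum_congr rfl h1, ← Finset.sum_mul, card_hit_h9 hP w hsg, pow_add]
        ring
    _ = (P.m : ℝ) ^ (P.b + P.s0) * ∑ w ∈ ShW_h9 P, (1 / (P.d : ℝ)) ^ w.length := by
        rw [Finset.mul_sum]
    _ ≤ _ := mul_le_mul_of_nonneg_left (sum_ShW_h9 hP hτ) (by positivity)

theorem Sh_nonneg (a : ℤ) : 0 ≤ Sh P a := by
  classical
  exact Finset.sum_nonneg fun w _ => by positivity

end PoolAgent.Helper28.PRG
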