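import Pool.Agent.Helper28.ED.Final
import Pool.Agent.Helper28.PRG.P1d
import Pool.Agent.Helper28.PRG.P2
import Pool.Agent.Helper28.PRG.P5c

/-!
# Growth of the number of chains
-/

set_option autoImplicit false

namespace PoolAgent.Helper28.PRG

open Finset Pool.Agent.Helper68.Moeller Pool.Agent.Helper52.Tao Pool.Agent.Helper91

open Classical in
theorem exists_growth {d m p v s0 : ℕ} {r : ℤ → ℤ} (hB : Base d m p v s0 r) (hmix : Mixing d m r)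
    {g : ℝ} (hg0 : 0 ≤ g) (hg1 : g < 1) :
    ∃ P : MP, P.Ok ∧ P.d = d ∧ P.m = m ∧ P.p = p ∧ P.v = v ∧ P.s0 = s0 ∧ P.r = r ∧
      ∃ n : ℕ, 1 ≤ n ∧ ∃ ε : ℝ, 0 < ε ∧ ∀ a : ℤ, ¬ PL.Dead d m r a →
        1 + ε ≤ ∑ w ∈ (P.Ch n).filter (fun w => PL.Hit d m r (sg w) a w ∧
          ¬ PL.Dead d m r (PL.pt d m r w a)), Real.exp (-(g * P.x w)) := by
  obtain ⟨P, hP, rfl, rfl, rfl, rfl, rfl, rfl, cs, hcs, h⟩ := mean_log hB hmix hg0 hg1
  obtain ⟨M, hM, hoff⟩ := MS_off hP g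
  obtain ⟨t, ht, hZ⟩ := PoolAgent.Helper28.ED.growth (MS P hP g) (MS_two hP g) (MS_sep hP g) M hM
    hoff cs hcs h
  refine ⟨P, hP, rfl, rfl, rfl, rfl, rfl, rfl, t, ht, Real.exp (cs / 2 * t) - 1, ?_, ?_⟩
  · have ht0 : (0 : ℝ) < t := by exact_mod_cast ht
    have := Real.add_one_lt_exp (show cs / 2 * (t : ℝ) ≠ 0 by positivity)
    have h2 : 0 < cs / 2 * (t : ℝ) := by positivity
    linarith
  · intro a ha
    have h1 := hZ a ha
    rw [MS_Z hP g t ha] at h1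
    linarith

end PoolAgent.Helper28.PRG
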