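import Pool.Agent.Helper28.PRG.P1a

/-!
# Block PRE-P7S: sizes

`m ^ (b n) pt u a = d ^ |u| a + Off u` (`PL.pt_spec`, `sg u = b n`), `exp (x u) = d ^ |u| / m ^ (b n)`, `|Off u| ≤ B m ^ |u| ≤ B m ^ (Tm n)`
(`abs_Off_le`). `x u ≥ x1 b n` (`mem_Ch_props`), `x u ≤ |u| log d ≤ Tm n log d`.
-/

set_option autoImplicit false

namespace PoolAgent.Helper28.PRG

open Finset Pool.Agent.Helper68.Moeller Pool.Agent.Helper52.Tao Pool.Agent.Helper91

theorem scale_bounds {P : MP} (hP : P.Ok) (n : ℕ) :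
    ∃ C2 : ℝ, 0 ≤ C2 ∧ ∀ u ∈ P.Ch n, P.x1 * P.b * n ≤ P.x u ∧ P.x u ≤ P.Tm * n * Real.log P.d ∧
      ∀ a : ℤ, PL.Hit P.d P.m P.r (sg u) a u →
        |(PL.pt P.d P.m P.r u a : ℝ) - Real.exp (P.x u) * a| ≤ C2 := by
  have hd := hP.base.hd
  have hdm := hP.base.hdm
  have hm1 : (1 : ℝ) ≤ P.m := by
    have : 1 ≤ P.m := by omega
    exact_mod_cast this
  have hd1 : (1 : ℝ) ≤ P.d := by
    have : 1 ≤ P.d := by omega
    exact_mod_cast this
  obtain ⟨B, hB⟩ : ∃ B : ℕ, ∀ j : ℤ, 0 < j → j < (P.d : ℤ) → |P.r j| ≤ B := by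
    refine ⟨∑ j ∈ range P.d, (P.r (j : ℤ)).natAbs, ?_⟩
    intro j hj0 hjd
    obtain ⟨k, rfl⟩ := Int.eq_ofNat_of_zero_le hj0.le
    have hk : k ∈ range P.d := Finset.mem_range.2 (by exact_mod_cast hjd)
    have h1 : (P.r (k : ℤ)).natAbs ≤ ∑ j ∈ range P.d, (P.r (j : ℤ)).natAbs :=
      Finset.single_le_sum (f := fun j : ℕ => (P.r (j : ℤ)).natAbs) (fun _ _ => Nat.zero_le _) hk
    rw [Int.abs_eq_natAbs]
    exact_mod_cast h1
  refine ⟨B * (P.m : ℝ) ^ (P.Tm * n), by positivity, ?_⟩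
  intro u hu
  obtain ⟨hW, hsg, -, hlen, hx⟩ := mem_Ch_props hP hu
  have hlogd := Real.log_nonneg hd1
  have hlogm := Real.log_nonneg hm1
  have hm0 : (0 : ℝ) < P.m := by linarith
  have hd0 : (0 : ℝ) < P.d := by linarith
  refine ⟨hx, ?_, ?_⟩
  · have h1 : (u.length : ℝ) ≤ P.Tm * n := by exact_mod_cast hlen
    have h2 : (u.length : ℝ) * Real.log P.d ≤ P.Tm * n * Real.log P.d :=
      mul_le_mul_of_nonneg_right h1 hlogd
    have h3 : 0 ≤ (sg u : ℝ) * Real.log P.m := by positivity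
    unfold MP.x
    linarith
  · intro a hH
    have h1 := PL.pt_spec (d := P.d) (m := P.m) (r := P.r) (by omega) hH
    have h2 : (P.m : ℝ) ^ sg u * (PL.pt P.d P.m P.r u a : ℝ) =
        (P.d : ℝ) ^ u.length * a + (Off P.d P.m P.r u : ℝ) := by exact_mod_cast h1
    have h3 : Real.exp (P.x u) = (P.d : ℝ) ^ u.length / (P.m : ℝ) ^ sg u := by
      unfold MP.x
      rw [Real.exp_sub, Real.exp_nat_mul, Real.exp_nat_mul, Real.exp_log hd0, Real.exp_log hm0]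
    have hms : (0 : ℝ) < (P.m : ℝ) ^ sg u := by positivity
    have h4 : (PL.pt P.d P.m P.r u a : ℝ) - Real.exp (P.x u) * a =
        (Off P.d P.m P.r u : ℝ) / (P.m : ℝ) ^ sg u := by
      rw [h3, eq_div_iff hms.ne']
      have : (P.d : ℝ) ^ u.length / (P.m : ℝ) ^ sg u * a * (P.m : ℝ) ^ sg u =
          (P.d : ℝ) ^ u.length * a := by field_simp
      rw [sub_mul, this]
      linarith
    rw [h4, abs_div, abs_of_pos hms]
    have h5 : |(Off P.d P.m P.r u : ℝ)| ≤ B * (P.m : ℝ) ^ u.length := by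
      have := abs_Off_le hd hdm hB hW
      exact_mod_cast this
    have h6 : (P.m : ℝ) ^ u.length ≤ (P.m : ℝ) ^ (P.Tm * n) := pow_le_pow_right₀ hm1 hlen
    have h7 : (1 : ℝ) ≤ (P.m : ℝ) ^ sg u := one_le_pow₀ hm1
    calc |(Off P.d P.m P.r u : ℝ)| / (P.m : ℝ) ^ sg u ≤ |(Off P.d P.m P.r u : ℝ)| :=
          div_le_self (abs_nonneg _) h7
      _ ≤ B * (P.m : ℝ) ^ u.length := h5
      _ ≤ B * (P.m : ℝ) ^ (P.Tm * n) := mul_le_mul_of_nonneg_left h6 (by positivity)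

end PoolAgent.Helper28.PRG
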