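import Pool.Agent.Helper28.PRG.P1a
import Pool.Agent.Helper28.PRG.P1b

/-!
# Block PRE-P7R: the recursion for the number of pairs

For `u ∈ Ch n` hitting `a` the pairs `(k, t)` counted by `NN (pt u a) X τ` give pairs `(k, t + |u|)` counted by
`NN a X (Tm n + τ)`: `T^[t + |u|] k = T^[|u|] (pt u a) = a` (`PL.pt_iter`, `Function.iterate_add_apply`), `|u| ≤ Tm n`. Pairs from
different `u` are different: the word `wd (t + |u|) k` of `k` is `wd |u| (T^[t] k) ++ wd t k = u ++ wd t k` (lemma on `wd`: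
`wd (s + t) k = wd s (T^[t] k) ++ wd t k`, induction on `s`), so `u` is determined by `(k, t + |u|)` (`Ch_cancel`). For
a fixed `u` the map `(k, t) ↦ (k, t + |u|)` is injective.
-/

set_option autoImplicit false

namespace PoolAgent.Helper28.PRG

open Finset Pool.Agent.Helper68.Moeller Pool.Agent.Helper52.Tao Pool.Agent.Helper91

open Classical in
/-- The number of the pairs `(n, t)` with `T^[t] n = a`, `1 ≤ n ≤ X`, `t ≤ τ`. -/
noncomputable def NN (d m : ℕ) (r : ℤ → ℤ) (a : ℤ) (X : ℝ) (τ : ℕ) : ℕ :=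
  ((Icc (1 : ℤ) ⌊X⌋ ×ˢ range (τ + 1)).filter (fun y => (T d m r)^[y.2] y.1 = a)).card

theorem wd_add_h9 (d m : ℕ) (r : ℤ → ℤ) (s t : ℕ) (n : ℤ) :
    wd d m r (s + t) n = wd d m r s ((T d m r)^[t] n) ++ wd d m r t n := by
  induction s with
  | zero => simp [wd]
  | succ s ih =>
    have h1 : s + 1 + t = s + t + 1 := by omega
    rw [h1, wd, wd, ih, List.cons_append, Function.iterate_add_apply]

open Classical in
theorem NN_rec {P : MP} (hP : P.Ok) (n : ℕ) (a : ℤ) (X : ℝ) (τ : ℕ) :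
    ∑ u ∈ (P.Ch n).filter (fun w => PL.Hit P.d P.m P.r (sg w) a w ∧
        ¬ PL.Dead P.d P.m P.r (PL.pt P.d P.m P.r w a)),
      NN P.d P.m P.r (PL.pt P.d P.m P.r u a) X τ ≤ NN P.d P.m P.r a X (P.Tm * n + τ) := by
  unfold NN
  rw [← Finset.card_sigma]
  have hword : ∀ u ∈ P.Ch n, PL.Hit P.d P.m P.r (sg u) a u → ∀ (k : ℤ) (t : ℕ),
      (T P.d P.m P.r)^[t] k = PL.pt P.d P.m P.r u a →
      wd P.d P.m P.r (u.length + t) k = u ++ wd P.d P.m P.r t k ∧
        (T P.d P.m P.r)^[u.length + t] k = a := by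
    intro u hu hH k t hk
    have h1 := PL.pt_iter hP.base.hd hP.base.hdm hP.base.hco hP.base.hr
      (mem_Ch_props hP hu).1 hH
    refine ⟨?_, ?_⟩
    · rw [wd_add_h9, hk, h1.1]
    · rw [Function.iterate_add_apply, hk, h1.2]
  refine Finset.card_le_card_of_injOn
    (fun z : (_ : List ℕ) × (ℤ × ℕ) => (z.2.1, z.1.length + z.2.2)) ?_ ?_
  · rintro ⟨u, k, t⟩ hz
    simp only [Finset.mem_coe, Finset.mem_sigma, Finset.mem_filter, Finset.mem_product,
      Finset.mem_range] at hz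
    obtain ⟨⟨hu, hH, -⟩, ⟨hk, ht⟩, hT⟩ := hz
    simp only [Finset.mem_coe, Finset.mem_filter, Finset.mem_product, Finset.mem_range]
    have h2 := (mem_Ch_props hP hu).2.2.2.1
    exact ⟨⟨hk, by omega⟩, (hword u hu hH k t hT).2⟩
  · rintro ⟨u, k, t⟩ hz ⟨u', k', t'⟩ hz' heq
    simp only [Finset.mem_coe, Finset.mem_sigma, Finset.mem_filter, Finset.mem_product,
      Finset.mem_range] at hz hz'
    obtain ⟨⟨hu, hH, -⟩, ⟨hk, ht⟩, hT⟩ := hz
    obtain ⟨⟨hu', hH', -⟩, ⟨hk', ht'⟩, hT'⟩ := hz'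
    simp only [Prod.mk.injEq] at heq
    obtain ⟨h1, h2⟩ := heq
    subst h1
    have h3 := (hword u hu hH k t hT).1
    have h4 := (hword u' hu' hH' k t' hT').1
    rw [h2] at h3
    rw [h3] at h4
    obtain ⟨h5, -⟩ := Ch_cancel hP hu hu' h4
    subst h5
    have h6 : t = t' := by omega
    subst h6
    rfl

end PoolAgent.Helper28.PRG
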